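import Pool.Agent.V5helper72.OA.Win

/-!
# Accessible vertices of all large clusters: translations, docking, many independent windows
(helper72)

Adapted from `Trans.lean`, `Dock.lean`, `Dock3.lean`, `Core.lean` of `Pool/Agent/V5helper99/OB`
(helper99), for a general property of the cluster of the box.
-/

set_option autoImplicit false
set_option maxHeartbeats 4000000

namespace Pool.Agent.V5helper72.OA

open H974 H12S Finset H984P H984N Pool.Agent.V5helper99.OB Pool.Agent.V5helper90.LL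
open Pool.Agent.V5helper72.OB (AvE)

/-- The lattice edges which avoid `D`. -/
def AvD (D : Set Vtx) : Set Edg := {e | src e ∉ D ∧ tgt e ∉ D}

/-- The vertex `w` of `D` is accessible from far away. -/
def AccD (n : ℕ) (D : Set Vtx) (w : Vtx) : Prop :=
  w ∈ D ∧ ∃ p q : Vtx, p ∉ D ∧ Adj Set.univ p w ∧ (3 * n : ℤ) ≤ sd q w ∧ Reach (AvD D) p q

/-- Many accessible vertices. -/
def WitD (n l : ℕ) (c E : ℝ) (D : Set Vtx) : Prop :=
  ∃ V : Finset Vtx, (∀ w ∈ V, AccD n D w) ∧ c * (n : ℝ) ^ (4 / 3 : ℝ) ≤ (V.card : ℝ) ∧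
    Pc l V ≤ E * ((n : ℝ) * l) ^ (4 / 3 : ℝ)

/-- From the witness near the box to the witness of the lattice. -/
theorem witD_of_witX {l : ℕ} {c0 E0 : ℝ} {a Q n : ℕ} {v c : Vtx} {F : Finset Edg} {s : ℝ}
    (hc0 : 0 < c0) (hE0 : 0 < E0) (hs : 0 < s)
    (ha : 1 ≤ a) (hn : 1 ≤ n) (han : a ≤ n) (hsa : s * n ≤ a)
    (h : WitX c0 E0 a l Q (v.1 - c.1, v.2 - c.2) (↑((tc c).mp F) : Set Edg)) :
    WitD n l (c0 * s ^ (4 / 3 : ℝ)) E0 {w | Reach (↑F : Set Edg) v w} := by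
  classical
  obtain ⟨V, hV1, hV2, hV3, hV4⟩ := h
  have ha' : (0:ℝ) < a := by exact_mod_cast ha
  have hn' : (0:ℝ) < n := by exact_mod_cast hn
  let f : Vtx ↪ Vtx := ⟨fun x => (x.1 + c.1, x.2 + c.2), fun x y hxy => by
    simp only [Prod.mk.injEq, add_left_inj] at hxy
    exact Prod.ext hxy.1 hxy.2⟩
  have hf : ∀ x, f x = (x.1 + c.1, x.2 + c.2) := fun _ => rfl
  have hreach : ∀ w, Reach (↑((tc c).mp F) : Set Edg) (v.1 - c.1, v.2 - c.2) w ↔
      Reach (↑F : Set Edg) v (f w) := by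
    intro w
    rw [← (tc c).reach_iff (F := (↑F : Set Edg)), ← LSym.coe_mp, tc_ψ, tc_ψ, hf]
    simp
  have hψ : ∀ x, (tc c).inv.ψ x = f x := by
    intro x
    show (tc c).ψ.symm x = f x
    rw [Equiv.symm_apply_eq, tc_ψ, hf]
    simp
  refine ⟨V.map f, ?_, ?_, ?_⟩
  · intro w hw
    rw [Finset.mem_map] at hw
    obtain ⟨w', hw', rfl⟩ := hw
    obtain ⟨hw0, hch⟩ := hV4 w' hw'
    refine ⟨(hreach w').1 (hV1 w' hw'), ?_⟩
    set m := (Q + 4) * n with hm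
    have hQa : Q * a ≤ Q * n := Nat.mul_le_mul_left _ han
    have hQm : Q * a ≤ m := by rw [hm]; nlinarith
    obtain ⟨p, hp, hpw, y, hy, hr⟩ := hch m hQm
    have hQa' : ((Q * a : ℕ) : ℤ) ≤ (Q : ℤ) * n := by exact_mod_cast hQa
    have hm' : (m : ℤ) = Q * n + 4 * n := by rw [hm]; push_cast; ring
    have hn0 : (0:ℤ) ≤ n := Int.natCast_nonneg n
    have hQn0 : (0:ℤ) ≤ (Q:ℤ) * n := by positivity
    refine ⟨f p, f y, fun h1 => hp ((hreach p).2 h1), ?_, ?_, ?_⟩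
    · have h1 := (tc c).inv.adj hpw
      rw [hψ, hψ] at h1
      obtain ⟨e, -, h2⟩ := h1
      exact ⟨e, trivial, h2⟩
    · simp only [hf]
      rw [sd_shift]
      have h1 : |y.1 - w'.1| ≤ sd y w' := le_max_left _ _
      have h2 : |w'.1| ≤ sd w' (0, 0) := by
        have := le_max_left |w'.1 - 0| |w'.2 - 0|
        simpa [sd] using this
      rw [abs_le] at h2
      have h3 := neg_abs_le (y.1 - w'.1)
      rw [hy] at h1 h3
      omega
    · have h1 := (tc c).inv.reach hr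
      rw [hψ, hψ] at h1
      refine h1.mono ?_
      rintro _ ⟨e, ⟨he1, he2⟩, rfl⟩
      obtain ⟨s1, s2, -⟩ := tc_src c e
      refine ⟨fun h2 => he1 ((hreach _).2 ?_), fun h2 => he2 ((hreach _).2 ?_)⟩
      · rw [hf, ← s1]; exact h2
      · rw [hf, ← s2]; exact h2
  · rw [Finset.card_map]
    refine le_trans ?_ hV2
    rw [mul_assoc, ← Real.mul_rpow hs.le hn'.le]
    apply mul_le_mul_of_nonneg_left _ hc0.le
    exact Real.rpow_le_rpow (by positivity) hsa (by norm_num)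
  · have e1 : Pc l (V.map f) = Pc l V := by
      unfold Pc
      rw [Finset.sum_map]
      apply Finset.sum_congr rfl
      intro u _
      rw [Finset.sum_map]
      apply Finset.sum_congr rfl
      intro w _
      rw [hf, hf, sd_shift]
    rw [e1]
    refine hV3.trans ?_
    apply mul_le_mul_of_nonneg_left _ hE0.le
    apply Real.rpow_le_rpow (by positivity) _ (by norm_num)
    apply mul_le_mul_of_nonneg_right _ (Nat.cast_nonneg _)
    exact_mod_cast han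

/-- The conclusion for one window. -/
def DockX (S k : Finset Edg) (v : Vtx) (W : Set Vtx) (H0 : Finset Edg) (n l : ℕ) (c E c1 : ℝ) :
    Prop :=
  ∃ Gd : Finset Edg → Prop, (∀ F, Gd F ↔ Gd (F ∩ UU S k W)) ∧
    (∀ H, H ⊆ (S \ k) \ UU S k W →
      c1 * PQ (1 / 2) (UU S k W) (fun G => Xc v (↑(H0 ∪ (H ∪ G)) : Set Edg)) ≤
      PQ (1 / 2) (UU S k W) (fun G => Xc v (↑(H0 ∪ (H ∪ G)) : Set Edg) ∧ Gd G)) ∧
    ∀ F, F ⊆ S \ k → Xc v (↑(H0 ∪ F) : Set Edg) → Gd F →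
      WitD n l c E {w | Reach (↑(H0 ∪ F) : Set Edg) v w}

theorem dock_genX {S k : Finset Edg} {v c : Vtx} {X top : ℤ} {P : Vtx → Prop} {L W : Set Vtx}
    {N a Q r n l : ℕ} {Hk : Finset Edg} {Z : Finset (ℤ × ℤ)} {yh : ℤ}
    {c0 E0 s p cs κ : ℝ}
    (h : WD ((tc c).mp S) ((tc c).mp k) (v.1 - c.1) (v.2 - c.2) (X - c.1) (top - c.2)
      (fun x => P (x.1 + c.1, x.2 + c.2)) {x | (x.1 + c.1, x.2 + c.2) ∈ L}
      {x | (x.1 + c.1, x.2 + c.2) ∈ W} N a Q Hk)
    (hr1 : 8 ≤ r) (hr : 64 * r ≤ N) (hc0 : 0 < c0) (hE0 : 0 < E0)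
    (hκ0 : 0 < κ) (hκ : ∀ n : ℕ, Win (1/2) κ n) (hcs : 0 ≤ cs) (hpat : Pat N Z yh)
    (hbox : p ≤ PQ (1 / 2) (TP N a) (BvX (GoodX N r c0 E0 a l Z yh) N r a Z yh))
    (hhook : ∀ C : Finset Vtx, 
      (∀ y ∈ C, |y.1| ≤ (N * a : ℕ) ∧ |y.2| ≤ (2 * N * a : ℕ)) →
      cs * PQ (1 / 2) (UU ((tc c).mp S) ((tc c).mp k) {x | (x.1 + c.1, x.2 + c.2) ∈ W})
          (fun F => Esc N r a Z yh C (↑F : Set Edg)) ≤
        PQ (1 / 2) (UU ((tc c).mp S) ((tc c).mp k) {x | (x.1 + c.1, x.2 + c.2) ∈ W})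
          (A2 ((tc c).mp S) ((tc c).mp k) (fun x => P (x.1 + c.1, x.2 + c.2))
            {x | (x.1 + c.1, x.2 + c.2) ∈ W} {x | (x.1 + c.1, x.2 + c.2) ∈ L} Hk N r a Z yh C))
    (hs : 0 < s) (hn : 1 ≤ n) (han : a ≤ n) (hsa : s * n ≤ a)
    {H0 : Finset Edg} (hH0 : H0 ⊆ k) (hH0S : H0 ⊆ S)
    (hconn : ∀ x ∈ L, Reach (↑(H0 ∩ k) : Set Edg) v x) :
    DockX S k v W H0 n l (c0 * s ^ (4 / 3 : ℝ)) E0
      (p * cs * κ ^ (4 * (2 * (32 * Q) + 1) ^ 2)) := by
  classical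
  have hU := UU_trl S k W c
  have hconn' : ∀ H1 : Finset Edg, H0 ⊆ H1 → ∀ x ∈ {x : Vtx | (x.1 + c.1, x.2 + c.2) ∈ L},
      Reach (↑((tc c).mp H1 ∩ (tc c).mp k) : Set Edg) (v.1 - c.1, v.2 - c.2) x := by
    intro H1 hH1 x hx
    have h1 := (tc c).reach (hconn _ hx)
    rw [tc_ψ, tc_ψ, ← LSym.coe_mp] at h1
    simp only [add_sub_cancel_right] at h1
    refine h1.mono ?_
    rw [← LSym.mp_inter]
    exact_mod_cast LSym.mp_mono _ (Finset.inter_subset_inter_right hH1)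
  have hdis : ∀ e, e ∈ k → e ∉ UU S k W := fun e he he2 => (mem_UU.1 he2).1.2 he
  have hsub : ∀ H, H ⊆ (S \ k) \ UU S k W →
      (tc c).mp (H0 ∪ H) ⊆ (tc c).mp S \ UU ((tc c).mp S) ((tc c).mp k)
        {x | (x.1 + c.1, x.2 + c.2) ∈ W} := by
    intro H hH
    rw [hU, ← LSym.mp_sdiff]
    apply LSym.mp_mono
    intro e he
    rw [Finset.mem_union] at he
    rw [Finset.mem_sdiff]
    rcases he with he | he
    · exact ⟨hH0S he, hdis e (hH0 he)⟩
    · have := Finset.mem_sdiff.1 (hH he)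
      exact ⟨(Finset.mem_sdiff.1 this.1).1, this.2⟩
  refine ⟨fun F => GdX (GoodX N r c0 E0 a l Z yh) ((tc c).mp S) ((tc c).mp k) (fun x => P (x.1 + c.1, x.2 + c.2))
      {x | (x.1 + c.1, x.2 + c.2) ∈ W} {x | (x.1 + c.1, x.2 + c.2) ∈ L} Hk N r a Q Z yh
      ((tc c).mp (F ∩ UU S k W)), ?_, ?_, ?_⟩
  · intro F
    simp only [Finset.inter_assoc, Finset.inter_self]
  · intro H hH
    have h1 := windowX (fun C hC => hC.1) (fun C hC => hC.2.1) h hr1 hr hκ0 hκ hcs hbox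
      (fun C _ hC => hhook C hC)
      (hsub H hH) (hconn' _ Finset.subset_union_left)
    rw [hU, PQ_mp, PQ_mp] at h1
    have e1 : ∀ G : Finset Edg, Xc (v.1 - c.1, v.2 - c.2)
        (↑((tc c).mp (H0 ∪ H) ∪ (tc c).mp G) : Set Edg) ↔ Xc v (↑(H0 ∪ (H ∪ G)) : Set Edg) := by
      intro G
      rw [← mp_union, Finset.union_assoc]
      exact Xc_trl v _ c
    simp only [e1] at h1
    refine h1.trans (le_of_eq ?_)
    apply Pr_congr
    intro G hG
    beta_reduce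
    rw [Finset.inter_eq_left.2 hG]
  · intro F hF hX hGd
    set U := UU S k W with hUd
    have hFe : F = (F \ U) ∪ (F ∩ U) := (Finset.sdiff_union_inter F U).symm
    have hH : F \ U ⊆ (S \ k) \ U := Finset.sdiff_subset_sdiff hF (Finset.Subset.refl _)
    have e2 : (tc c).mp (H0 ∪ (F \ U)) ∪ (tc c).mp (F ∩ U) = (tc c).mp (H0 ∪ F) := by
      rw [← mp_union, Finset.union_assoc, ← hFe]
    have h2 := witnessX h hr hr1 hpat (hsub _ hH) (G := (tc c).mp (F ∩ U))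
      (by rw [hU]; exact LSym.mp_mono _ Finset.inter_subset_right)
      (hconn' _ Finset.subset_union_left) (by rw [e2]; exact (Xc_trl v _ c).2 hX) hGd
    rw [e2] at h2
    have hQ := h.hQ
    exact witD_of_witX hc0 hE0 hs (by have := h.a64; omega) hn han hsa h2

theorem dockX {n m ρ N a0 r kk K l : ℕ} {k H0 : Finset Edg} {v : Vtx} {P : Vtx → Prop}
    {L : Set Vtx} {c0 E0 p κ s θ σ : ℝ}
    (sdd : SD k v.1 v.2 (v.1 + m) n P L) (hv1 : 0 ≤ v.1) (hvm : v.1 + m ≤ n)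
    (hvn : v.2 ≤ n) (hvy : 64 * (ρ : ℤ) ≤ v.2) (hρm : 128 * ρ ≤ m)
    (hnA : ∀ y, v.2 < y → (v.1, y) ∉ L)
    (hnt : ∀ x ∈ L, x.1 ≤ v.1 + ⌊θ * n⌋ → v.2 - 17 * ρ ≤ x.2 → x.2 ≤ v.2 - 13 * ρ → False)
    (hr1 : 8 ≤ r) (hr : 64 * r ≤ N) (hc0 : 0 < c0) (hE0 : 0 < E0)
    (hκ0 : 0 < κ) (hκ : ∀ n : ℕ, Win (1/2) κ n)
    (hbox : ∀ a : ℕ, a0 ≤ a → ∃ (Z : Finset (ℤ × ℤ)) (yh : ℤ), Pat N Z yh ∧
      p ≤ PQ (1 / 2) (TP N a) (BvX (GoodX N r c0 E0 a l Z yh) N r a Z yh))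
    (hk : ∀ h : ℤ, 1 ≤ h → (1/2 : ℝ) ^ kk ≤ hh (1/2) (K * h) h) (hK : 64 * N + 2048 ≤ K)
    (hs : 0 < s) (hsθ : s * (128 * (2 * N + 12)) ≤ θ) (hsσ : s * (128 * (2 * N + 12)) ≤ σ)
    (hσρ : σ * n ≤ ρ) (ha0 : (a0 : ℝ) ≤ s * n) (h64 : 64 ≤ s * n)
    (hH0 : H0 ⊆ k) (hH0S : H0 ⊆ RE 0 n 0 n)
    (hconn : ∀ x ∈ L, Reach (↑(H0 ∩ k) : Set Edg) v x) :
    DockX (RE 0 n 0 n) k v (W00 v ρ) H0 n l (c0 * s ^ (4 / 3 : ℝ)) E0
      (p * (1/2) ^ (8 * kk) * κ ^ (4 * (2 * (32 * (4000 * (2 * N + 12))) + 1) ^ 2)) := by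
  classical
  have hN : 32 ≤ N := by omega
  have hn : 1 ≤ n := by
    rcases Nat.eq_zero_or_pos n with h | h
    · rw [h] at h64; norm_num at h64
    · exact h
  have hn' : (0:ℝ) < n := by exact_mod_cast hn
  have hN' : (0:ℝ) ≤ N := Nat.cast_nonneg N
  have hmn : (m : ℤ) ≤ n := by omega
  by_cases hI : ∃ x1 ∈ L, v.2 - 16 * ρ ≤ x1.2 ∧ x1.2 ≤ v.2 - 14 * ρ ∧ 8 * (x1.1 - v.1) ≤ ρ
  · obtain ⟨x1, hx1, h1, h2, h3⟩ := hI
    obtain ⟨p', hp', h4, h5, h6⟩ := exists_close (A := v.1) (lo := v.2 - 17 * ρ)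
      (hi := v.2 - 13 * ρ) sdd.LA hx1 (by omega) (by omega)
    have h7 := h6 x1 hx1 (by omega) (by omega)
    rw [sub_self, abs_zero, add_zero] at h7
    have h8 := sdd.LA p' hp'
    have h9 : ⌊θ * n⌋ < p'.1 - v.1 := by
      by_contra hcon
      exact hnt p' hp' (by omega) h4 h5
    have h7' := h7
    have h10 : -(p'.2 - x1.2) ≤ |p'.2 - x1.2| := neg_le_abs _
    have h11 : (p'.2 - x1.2) ≤ |p'.2 - x1.2| := le_abs_self _
    set g : ℤ := p'.1 - v.1 with hg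
    have hg0 : 0 ≤ g := by omega
    -- the scale
    set H8 : ℤ := 8 * (2 * N + 12) with hH8
    have hH8p : 0 < H8 := by positivity
    obtain ⟨a, haa⟩ : ∃ a : ℕ, (a : ℤ) = g / H8 := ⟨(g / H8).toNat, by
      have := Int.ediv_nonneg hg0 hH8p.le
      omega⟩
    have e1 : H8 * a ≤ g := by rw [haa]; exact Int.mul_ediv_self_le hH8p.ne'
    have e2 : g < H8 * a + H8 := by
      rw [haa]
      have := Int.lt_ediv_add_one_mul_self g hH8p
      linarith
    have e3 : 8 * bb N a = H8 * a := by unfold bb; push_cast; ring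
    have hga : (g : ℝ) < 8 * (2 * N + 12) * a + 8 * (2 * N + 12) := by
      have : ((g : ℤ) : ℝ) < ((H8 * a + H8 : ℤ) : ℝ) := by exact_mod_cast e2
      rw [hH8] at this
      push_cast at this
      exact this
    have hgθ : θ * n < g := by
      have : (⌊θ * n⌋ : ℝ) + 1 ≤ g := by exact_mod_cast h9
      have := Int.lt_floor_add_one (θ * n)
      linarith
    have hsa : s * n ≤ a := by
      have k1 : s * (128 * (2 * N + 12)) * n ≤ θ * n := mul_le_mul_of_nonneg_right hsθ hn'.le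
      have k2 : (8 * (2 * (N:ℝ) + 12)) * (16 * (s * n)) < (8 * (2 * N + 12)) * (a + 1) := by
        linarith
      have k3 := lt_of_mul_lt_mul_left k2 (by positivity)
      linarith
    have ha64 : 64 ≤ a := by
      have : (64 : ℝ) ≤ a := h64.trans hsa
      exact_mod_cast this
    have haa0 : a0 ≤ a := by
      have : (a0 : ℝ) ≤ a := ha0.trans hsa
      exact_mod_cast this
    have hbl := bb_lo (N := N) ha64
    obtain ⟨e9, e10, eb, e32, ha1, e2'⟩ := bb_facts (N := N) (a := a) (by omega) hN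
    have han : a ≤ n := by omega
    obtain ⟨Z, yh, hpat, hbx⟩ := hbox a haa0
    have hfree : ∀ x ∈ L, x.2 - p'.2 ≤ g → p'.2 - x.2 ≤ g → 3 * g ≤ 4 * (x.1 - v.1) := by
      intro x hx k1 k2
      have k3 := h6 x hx (by omega) (by omega)
      have k4 : |x.2 - x1.2| ≤ |x.2 - p'.2| + |p'.2 - x1.2| := abs_sub_le _ _ _
      have k5 : |x.2 - p'.2| ≤ g := by rw [abs_le]; omega
      omega
    set c : Vtx := (v.1 + 4 * bb N a, p'.2) with hc
    have c1 : c.1 = v.1 + 4 * bb N a := by rw [hc]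
    have c2 : c.2 = p'.2 := by rw [hc]
    have hwd := wd1 (ρ := ρ) (g := g) (cy := p'.2) sdd hv1 hvm hvn hvy hρm ha64 hN (by omega)
      (by omega) (by omega) (by omega) hfree hc
    refine dock_genX (a := a) (c := c) (Q := 4000 * (2 * N + 12)) (Z := Z) (yh := yh) hwd hr1 hr
      hc0 hE0 hκ0 hκ (by positivity) hpat hbx (fun C hC => ?_) hs hn han hsa hH0 hH0S hconn
    refine hook1 hwd hN hr hpat ?_ ?_ ?_ ?_ hk (by omega) hC
    · intro e he hne
      exfalso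
      apply hne
      rw [tc_RE]
      refine Hk1_sub (by omega) hN ?_ ?_ ?_ ?_ he
      · rw [c1]; omega
      · rw [c1]; omega
      · rw [c2]; omega
      · rw [c2]; omega
    · intro x hx k1 k2
      have k3 := hfree (x.1 + c.1, x.2 + c.2) hx (by simp only [c2]; omega)
        (by simp only [c2]; omega)
      simp only [c1] at k3
      rw [e10]
      omega
    · refine ⟨(g - 4 * bb N a, 0), ?_, ?_, ?_, ?_⟩
      · show (g - 4 * bb N a + c.1, (0:ℤ) + c.2) ∈ L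
        have : ((g - 4 * bb N a + c.1, (0:ℤ) + c.2) : Vtx) = p' := by
          rw [c1, c2]
          apply Prod.ext <;> simp only <;> omega
        rw [this]
        exact hp'
      · simp only; omega
      · simp only; omega
      · simp only; omega
    · rw [c2]; omega
  · push Not at hI
    set H64 : ℕ := 64 * (2 * N + 12) with hH64
    have hH64p : 0 < H64 := by omega
    obtain ⟨a, haa⟩ : ∃ a : ℕ, a = ρ / H64 := ⟨_, rfl⟩
    have e1 : H64 * a ≤ ρ := by rw [haa]; exact Nat.mul_div_le _ _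
    have e2 : ρ < H64 * a + H64 := by
      rw [haa]
      have := Nat.lt_mul_div_succ ρ hH64p
      linarith
    have e3 : 64 * bb N a = ((H64 * a : ℕ) : ℤ) := by unfold bb; rw [hH64]; push_cast; ring
    have hsa : s * n ≤ a := by
      have k0 : (ρ : ℝ) < 64 * (2 * N + 12) * a + 64 * (2 * N + 12) := by
        have : ((ρ : ℕ) : ℝ) < ((H64 * a + H64 : ℕ) : ℝ) := by exact_mod_cast e2
        rw [hH64] at this
        push_cast at this
        exact this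
      have k1 : s * (128 * (2 * N + 12)) * n ≤ σ * n := mul_le_mul_of_nonneg_right hsσ hn'.le
      have k2 : (64 * (2 * (N:ℝ) + 12)) * (2 * (s * n)) < (64 * (2 * N + 12)) * (a + 1) := by
        linarith
      have k3 := lt_of_mul_lt_mul_left k2 (by positivity)
      linarith
    have ha64 : 64 ≤ a := by
      have : (64 : ℝ) ≤ a := h64.trans hsa
      exact_mod_cast this
    have haa0 : a0 ≤ a := by
      have : (a0 : ℝ) ≤ a := ha0.trans hsa
      exact_mod_cast this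
    have hbl := bb_lo (N := N) ha64
    have hρ1 : 64 * bb N a ≤ ρ := by rw [e3]; exact_mod_cast e1
    have hρ2 : (ρ : ℤ) ≤ 128 * bb N a := by
      have : (ρ : ℤ) < ((H64 * a : ℕ) : ℤ) + (H64 : ℤ) := by exact_mod_cast e2
      rw [← e3, hH64] at this
      push_cast at this
      omega
    obtain ⟨e9, e10, eb, e32, ha1, e2'⟩ := bb_facts (N := N) (a := a) (by omega) hN
    have han : a ≤ n := by omega
    obtain ⟨Z, yh, hpat, hbx⟩ := hbox a haa0
    have hfree : ∀ x ∈ L, v.2 - 16 * ρ ≤ x.2 → x.2 ≤ v.2 - 14 * ρ → ρ < 8 * (x.1 - v.1) :=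
      fun x hx k1 k2 => hI x hx k1 k2
    set c : Vtx := (v.1 + 4 * bb N a, v.2 - 15 * ρ) with hc
    have c1 : c.1 = v.1 + 4 * bb N a := by rw [hc]
    have c2 : c.2 = v.2 - 15 * ρ := by rw [hc]
    have hwd := wd2 (ρ := ρ) sdd hv1 hvm hvn hvy hρm ha64 hN hnA hρ1 hρ2 hfree hc
    refine dock_genX (a := a) (c := c) (Q := 4000 * (2 * N + 12)) (Z := Z) (yh := yh) hwd hr1 hr
      hc0 hE0 hκ0 hκ (by positivity) hpat hbx (fun C hC => ?_) hs hn han hsa hH0 hH0S hconn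
    refine hook2 (ρ := (ρ : ℤ)) hwd hN hr hpat ?_ ?_ ?_ ?_ ?_ hk (by omega) ?_ hC
    · intro e he hne
      have k1 := Hk2_end (by omega) hN (by rw [c1]; omega) (by rw [c1]; omega) (by omega) he
        (Or.inl rfl)
      have k2 := Hk2_end (by omega) hN (by rw [c1]; omega) (by rw [c1]; omega) (by omega) he
        (Or.inr rfl)
      rw [tc_RE] at hne
      obtain ⟨x, y, b⟩ := e
      rw [e9, c1] at k1 k2
      rw [c1, c2] at hne
      rw [c2]
      cases b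
      · rw [mem_RE_false] at hne
        simp only [src_mk, tgt_false] at k1 k2 ⊢
        omega
      · rw [mem_RE_true] at hne
        simp only [src_mk, tgt_true] at k1 k2 ⊢
        omega
    · intro y hy hL
      have h1 : ((v.1 - c.1 + c.1, y + c.2) : Vtx) ∈ L := hL
      rw [sub_add_cancel] at h1
      exact hnA _ (by omega) h1
    · rw [c2]; omega
    · rw [c1]; omega
    · omega
    · have h1 : (2048 : ℤ) ≤ K := by
        have : 2048 ≤ K := by omega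
        exact_mod_cast this
      have h2 : (0:ℤ) ≤ bb N a := by omega
      have h3 : (2048 : ℤ) * bb N a ≤ K * bb N a := mul_le_mul_of_nonneg_right h1 h2
      omega


/-- COREX: many independent windows. -/
def S_COREX : Prop := ∃ c1 : ℝ, 0 < c1 ∧ c1 ≤ 1 ∧
  ∀ (θ σ : ℝ), 0 < θ → 0 < σ → ∃ (c E : ℝ) (n0 : ℕ), 0 < c ∧ 0 < E ∧
    ∀ n : ℕ, n0 ≤ n → ∀ l : ℕ, 1 ≤ l → ∀ (m ρ J : ℕ), σ * n ≤ ρ → 64 * 2 ^ J * ρ ≤ m → m ≤ n →
      ∀ v : Vtx, v ∈ Finset.Icc (0:ℤ) n ×ˢ Finset.Icc (0:ℤ) n → (n : ℤ) ≤ 2 * v.2 →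
        PQ (1 / 2) (RE 0 n 0 n) (fun F => Lf v m (↑F : Set Edg) ∧
          (∀ j < J, ¬ Tch v m ⌊θ * n⌋ (v.2 - 17 * (2 ^ j * ρ : ℕ)) (v.2 - 13 * (2 ^ j * ρ : ℕ)) F) ∧
          ¬ WitD n l c E {w | Reach (↑F : Set Edg) v w}) ≤
        (1 - c1) ^ J * PQ (1 / 2) (RE 0 n 0 n) (fun F => Lf v m (↑F : Set Edg))

theorem t_COREX (hBOX : S_BOXX) : S_COREX := by
  classical
  obtain ⟨N, r, a0, c0, E0, p, hr1, hr, ha0, hc0, hE0, hp, hbox⟩ := hBOX
  obtain ⟨κ, hκ0, hκ⟩ := win_half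
  obtain ⟨kk, hk⟩ := hh_long (64 * N + 2048)
  have ok : Ok (fun _ : Edg => (1/2 : ℝ)) := okq (by norm_num) (by norm_num)
  set cc : ℝ := p * (1/2) ^ (8 * kk) * κ ^ (4 * (2 * (32 * (4000 * (2 * N + 12))) + 1) ^ 2)
    with hcc
  have hcc0 : 0 < cc := by positivity
  refine ⟨min cc 1, lt_min hcc0 one_pos, min_le_right _ _, ?_⟩
  intro θ σ hθ hσ
  set s : ℝ := min θ σ / (128 * (2 * N + 12)) with hsd
  have hden : (0:ℝ) < 128 * (2 * N + 12) := by positivity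
  have hs : 0 < s := div_pos (lt_min hθ hσ) hden
  have hs1 : s * (128 * (2 * N + 12)) = min θ σ := by rw [hsd]; field_simp
  have hsθ : s * (128 * (2 * N + 12)) ≤ θ := by rw [hs1]; exact min_le_left _ _
  have hsσ : s * (128 * (2 * N + 12)) ≤ σ := by rw [hs1]; exact min_le_right _ _
  refine ⟨c0 * s ^ (4 / 3 : ℝ), E0, ⌈((a0 : ℝ) + 64) / s⌉₊, by positivity, hE0, ?_⟩
  intro n hn l hl m ρ J hσρ hJm hmn v hv hvy
  have hsn : (a0 : ℝ) + 64 ≤ s * n := by
    have h1 : ((a0 : ℝ) + 64) / s ≤ n := (Nat.le_ceil _).trans (by exact_mod_cast hn)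
    rw [div_le_iff₀ hs] at h1
    linarith
  have h64 : (64 : ℝ) ≤ s * n := by have := Nat.cast_nonneg (α := ℝ) a0; linarith
  have ha0n : (a0 : ℝ) ≤ s * n := by linarith
  have hn' : (0:ℝ) < n := by
    rcases Nat.eq_zero_or_pos n with h | h
    · rw [h] at h64; norm_num at h64
    · exact_mod_cast h
  have hρ1 : 1 ≤ ρ := by
    have : (0:ℝ) < ρ := lt_of_lt_of_le (by positivity) hσρ
    exact_mod_cast this
  have hm1 : 1 ≤ m := by
    have : 1 ≤ 64 * 2 ^ J * ρ := Nat.one_le_iff_ne_zero.2 (by positivity)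
    omega
  rw [Finset.mem_product, Finset.mem_Icc, Finset.mem_Icc] at hv
  obtain ⟨⟨hv1, hv1n⟩, hv2, hvn⟩ := hv
  set S := RE 0 (n : ℤ) 0 n with hS
  set Aev : Finset Edg → Prop := fun F =>
    (∃ Y T, Strand (insert (v.1 - 1, v.2, true) (↑F : Set Edg)) v.1 v.2 (v.1 + m) Y T) ∧
    (∀ j < J, ¬ Tch v m ⌊θ * n⌋ (v.2 - 17 * (2 ^ j * ρ : ℕ)) (v.2 - 13 * (2 ^ j * ρ : ℕ)) F)
    with hAev
  set c' : ℝ := c0 * s ^ (4 / 3 : ℝ) with hc'
  have main : Pr (fun _ : Edg => (1/2 : ℝ)) S (fun F => Aev F ∧ (Xc v (↑F : Set Edg) ∧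
      ¬ WitD n l c' E0 {w | Reach (↑F : Set Edg) v w})) ≤
      (1 - min cc 1) ^ J * Pr (fun _ : Edg => (1/2 : ℝ)) S
        (fun F => Aev F ∧ Xc v (↑F : Set Edg)) := by
    refine markov_ratio ok (K := Kx n m v) (fun F _ => Kx_sub F) Kx_stop ?_ ?_
    · rintro F F' hF hF' hK ⟨⟨Y, T, hst⟩, hnt⟩
      obtain ⟨h1, h2, h3⟩ := transfer hF hF' hK hst
      refine ⟨⟨Y, T, h1⟩, ?_⟩
      rintro j hj ⟨Y', T', hst', x, hx, hx1, hx2, hx3⟩
      refine hnt j hj ⟨Y, T, hst, x, ?_, hx1, hx2, hx3⟩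
      have := strand_unique h1 hst'
      subst this
      rw [← h3]
      exact hx
    · rintro F0 hF0 ⟨⟨Y, T, hst⟩, hnt⟩
      rw [Kx_of hst]
      set k := Exm (insert (v.1 - 1, v.2, true) (↑F0 : Set Edg)) (st0 v.1 v.2) T with hkd
      have e1 : S \ (k ∩ RE 0 (n:ℤ) 0 n) = S \ k := MK_sdiff (Finset.Subset.refl _) k
      have e2 : F0 ∩ (k ∩ RE 0 (n:ℤ) 0 n) = F0 ∩ k := MK_inter hF0 k
      rw [e1, e2]
      set H0 := F0 ∩ k with hH0
      have hvR : inR 0 n 0 n (v.1, v.2) := ⟨⟨hv1, hv1n⟩, hv2, hvn⟩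
      obtain ⟨P, sdd, hcon⟩ := SD_of_strand (by exact_mod_cast hF0) hvR hst
      set L := LV (insert (v.1 - 1, v.2, true) (↑F0 : Set Edg)) v.1 v.2 T with hL
      have hconn : ∀ x ∈ L, Reach (↑(H0 ∩ k) : Set Edg) v x := by
        intro x hx
        refine (hcon x hx).mono ?_
        rw [hH0, Finset.inter_assoc, Finset.inter_self, Finset.coe_inter]
      have hH0k : H0 ⊆ k := Finset.inter_subset_right
      have hH0S : H0 ⊆ S := Finset.inter_subset_left.trans hF0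
      have hvm : v.1 + m ≤ n := by
        have h1 : (v.1 + (m:ℤ), Y) ∈ L := ⟨T, le_rfl, by rw [hst.tip]⟩
        have h2 := reach_RE (n := n) (F := (↑F0 : Set Edg)) (by exact_mod_cast hF0) hvR
          ((hcon _ h1).mono Set.inter_subset_left)
        exact h2.1.2
      by_cases hZ : ∃ y, v.2 < y ∧ (v.1, y) ∈ L
      · obtain ⟨y, hy, hyL⟩ := hZ
        have hXf : ∀ G : Finset Edg, ¬ Xc v (↑(H0 ∪ G) : Set Edg) := by
          intro G hX
          have h1 : Reach (↑(H0 ∪ G) : Set Edg) v (v.1, y) := by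
            refine (hconn _ hyL).mono ?_
            exact_mod_cast (Finset.inter_subset_left.trans Finset.subset_union_left)
          have := (hX _ h1).2 rfl
          simp only at this
          omega
        rw [MK_false _ _ (fun G _ h => hXf G h.1), MK_false _ _ (fun G _ h => hXf G h), mul_zero]
      · push Not at hZ
        have hdock : ∀ j, j < J → DockX S k v (W00 v (2 ^ j * ρ)) H0 n l c' E0 cc := by
          intro j hj
          have h1 : 2 ^ (j + 1) * ρ ≤ 2 ^ J * ρ :=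
            Nat.mul_le_mul_right _ (Nat.pow_le_pow_right (by norm_num) hj)
          have h2 : 2 ^ (j + 1) * ρ = 2 * (2 ^ j * ρ) := by ring
          have h3 : 64 * 2 ^ J * ρ = 64 * (2 ^ J * ρ) := by ring
          have h4 : 128 * (2 ^ j * ρ) ≤ m := by omega
          have h4' : ((128 * (2 ^ j * ρ) : ℕ) : ℤ) ≤ m := by exact_mod_cast h4
          have h5 : ρ ≤ 2 ^ j * ρ := Nat.le_mul_of_pos_left _ (by positivity)
          have h6 : (ρ : ℝ) ≤ ((2 ^ j * ρ : ℕ) : ℝ) := by exact_mod_cast h5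
          refine dockX (l := l) (ρ := 2 ^ j * ρ) (K := 64 * N + 2048) (P := P) (L := L) sdd hv1 hvm hvn
            (by omega) h4 (fun y hy => hZ y hy) ?_ hr1 hr hc0 hE0 hκ0 hκ (hbox l hl) hk le_rfl
            hs hsθ hsσ (hσρ.trans h6) ha0n h64 hH0k hH0S hconn
          intro x hx k1 k2 k3
          exact hnt j hj ⟨Y, T, hst, x, hx, k1, k2, k3⟩
        choose! Gd hGd1 hGd2 hGd3 using hdock
        have hiter := iter_win ok (S := S \ k) (X := fun G => Xc v (↑(H0 ∪ G) : Set Edg))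
          (U := fun j => UU S k (W00 v (2 ^ j * ρ))) (Gd := Gd) (c := min cc 1)
          (min_le_right _ _) J (fun j _ => Finset.filter_subset _ _)
          (fun i _ j _ hij => UU_disj hij) (fun j hj F _ => hGd1 j hj F) (fun j hj H hH => by
            refine le_trans ?_ (hGd2 j hj H hH)
            exact mul_le_mul_of_nonneg_right (min_le_left _ _) (Pr_nonneg ok _ _))
        refine le_trans (Pr_mono ok ?_) hiter
        rintro G hG ⟨hX, hW⟩
        exact ⟨hX, fun j hj hGj => hW (hGd3 j hj G hG hX hGj)⟩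
  calc PQ (1 / 2) S (fun F => Lf v m (↑F : Set Edg) ∧
          (∀ j < J, ¬ Tch v m ⌊θ * n⌋ (v.2 - 17 * (2 ^ j * ρ : ℕ))
            (v.2 - 13 * (2 ^ j * ρ : ℕ)) F) ∧
          ¬ WitD n l c' E0 {w | Reach (↑F : Set Edg) v w})
      ≤ Pr (fun _ : Edg => (1/2 : ℝ)) S (fun F => Aev F ∧ (Xc v (↑F : Set Edg) ∧
          ¬ WitD n l c' E0 {w | Reach (↑F : Set Edg) v w})) := by
        apply Pr_mono ok
        rintro F hF ⟨h1, h2, h3⟩
        exact ⟨⟨strand_of_Lf hm1 h1, h2⟩, h1.2, h3⟩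
    _ ≤ _ := main
    _ ≤ (1 - min cc 1) ^ J * PQ (1 / 2) S (fun F => Lf v m (↑F : Set Edg)) := by
        apply mul_le_mul_of_nonneg_left _ (pow_nonneg (by have := min_le_right cc 1; linarith) _)
        apply Pr_mono ok
        rintro F hF ⟨⟨⟨Y, T, hst⟩, _⟩, hX⟩
        refine ⟨⟨(v.1 + m, Y), le_rfl, ?_⟩, hX⟩
        have h1 := strand_reach hst (le_refl T)
        rw [hst.tip] at h1
        refine h1.mono ?_
        rintro e ⟨he, he1, he2⟩
        rcases he with he | he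
        · exact absurd he he2
        · exact he


end Pool.Agent.V5helper72.OA
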