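import Pool.Agent.V5helper90.OB.Asm
import Pool.Agent.V5helper72.OA.Cor

/-!
# Accessible vertices of all large clusters: the assembly (helper72)

Adapted from `Asm.lean` of `Pool/Agent/V5helper90/OB` (helper90).
-/

set_option autoImplicit false

namespace Pool.Agent.V5helper72.OA

open H974 H12S Finset H984P H984N H342P Pool.Agent.V5helper99.OB Pool.Agent.V5helper90.LL
open Pool.Agent.V5helper90.OB (Iso iso_tps iso_rfy mem_bx exists_extreme cluster_eq reach_mp pr_inv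
  rfy_box)

theorem okh : Ok (fun _ : Edg => (1 / 2 : ℝ)) := fun _ => ⟨by norm_num, by norm_num⟩

/-- DWX: with high probability all the clusters of `Λ_n` of diameter at least `η n` have many
accessible vertices. -/
def S_DWX : Prop := ∀ η : ℝ, 0 < η →
  ∃ (c E : ℝ) (n0 : ℕ), 0 < c ∧ 0 < E ∧ ∀ n : ℕ, n0 ≤ n → ∀ l : ℕ, 1 ≤ l →
    Plain.prob n (fun F => ∃ v ∈ Plain.box n,
      (∃ a ∈ Plain.cluster F v, ∃ b ∈ Plain.cluster F v, η * n ≤ ((sd a b : ℤ) : ℝ)) ∧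
        ¬ WitD n l c E (Plain.cluster F v)) ≤ η

theorem witD_of_image {g : LSym} (hg : Iso g.ψ) {n l : ℕ} {D D' : Set Vtx}
    (hD : ∀ x, g.ψ x ∈ D' ↔ x ∈ D) {c E : ℝ} (h : WitD n l c E D') :
    WitD n l c E D := by
  classical
  obtain ⟨V, hV, hV2, hV3⟩ := h
  have hgs : ∀ u v, sd (g.ψ.symm u) (g.ψ.symm v) = sd u v := by
    intro u v
    rw [← hg, Equiv.apply_symm_apply, Equiv.apply_symm_apply]
  have hDs : ∀ x, g.ψ.symm x ∈ D ↔ x ∈ D' := by
    intro x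
    rw [← hD, Equiv.apply_symm_apply]
  refine ⟨V.map g.ψ.symm.toEmbedding, ?_, ?_, ?_⟩
  · intro w hw
    obtain ⟨u, hu, rfl⟩ := Finset.mem_map.1 hw
    obtain ⟨huD, p, q, hp, hpu, hq, hr⟩ := hV u hu
    refine ⟨(hDs u).2 huD, g.ψ.symm p, g.ψ.symm q, fun h1 => hp ((hDs p).1 h1), ?_, ?_, ?_⟩
    · obtain ⟨e, -, h2⟩ := g.inv.adj hpu
      exact ⟨e, trivial, h2⟩
    · simp only [Equiv.coe_toEmbedding]
      rw [hgs]
      exact hq
    · refine (g.inv.reach hr).mono ?_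
      rintro _ ⟨e, ⟨he1, he2⟩, rfl⟩
      have hh : ∀ x, x ∉ D' → g.inv.ψ x ∉ D := fun x hx h1 => hx ((hDs x).1 h1)
      rcases g.inv.compat e with ⟨h1, h2⟩ | ⟨h1, h2⟩
      · refine ⟨?_, ?_⟩
        · rw [h1]; exact hh _ he1
        · rw [h2]; exact hh _ he2
      · refine ⟨?_, ?_⟩
        · rw [h1]; exact hh _ he2
        · rw [h2]; exact hh _ he1
  · rw [Finset.card_map]
    exact hV2
  · refine le_trans (le_of_eq ?_) hV3
    unfold Pc
    rw [Finset.sum_map]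
    refine Finset.sum_congr rfl fun v _ => ?_
    rw [Finset.sum_map]
    refine Finset.sum_congr rfl fun w _ => ?_
    simp only [Equiv.coe_toEmbedding, hgs]

/-- The bad event for extreme vertices in the upper half. -/
def EvX (n m l : ℕ) (c E : ℝ) (F : Finset Edg) : Prop :=
  ∃ v ∈ (Finset.Icc (0:ℤ) n ×ˢ Finset.Icc (0:ℤ) n).filter (fun v : Vtx => (n : ℤ) ≤ 2 * v.2),
    Lf v m (↑F : Set Edg) ∧ ¬ WitD n l c E {w | Reach (↑F : Set Edg) v w}

/-- Clusters of large horizontal extent. -/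
theorem horizontalX {n m : ℕ} {F : Finset Edg} (hF : F ⊆ RE 0 n 0 n) {v0 a b : Vtx}
    (hv0 : inR 0 n 0 n v0) (ha : Reach (↑F : Set Edg) v0 a) (hb : Reach (↑F : Set Edg) v0 b)
    (hab : (m : ℤ) ≤ |a.1 - b.1|) {l : ℕ} {c E : ℝ}
    (hW : ¬ WitD n l c E {w | Reach (↑F : Set Edg) v0 w}) :
    EvX n m l c E F ∨ EvX n m l c E ((rfy n).mp F) := by
  have hFs : (↑F : Set Edg) ⊆ ↑(RE 0 n 0 n) := by exact_mod_cast hF
  have hD : ∀ w ∈ {w | Reach (↑F : Set Edg) v0 w}, inR 0 n 0 n w := fun w hw =>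
    reach_RE hFs hv0 hw
  obtain ⟨v, hv, v', hv', h1, h2, h3, h4, h5⟩ := exists_extreme hD ⟨v0, Reach.refl _ _⟩
  have hfar : ∃ w, v.1 + m ≤ w.1 ∧ Reach (↑F : Set Edg) v0 w := by
    have ha1 := h3 a ha
    have hb1 := h3 b hb
    rcases le_abs'.1 hab with h | h
    · exact ⟨b, by omega, hb⟩
    · exact ⟨a, by omega, ha⟩
  have hvin := hD v hv
  have hvin' := hD v' hv'
  by_cases hhalf : (n : ℤ) ≤ 2 * v.2
  · left
    refine ⟨v, Finset.mem_filter.2 ⟨mem_bx.2 hvin, hhalf⟩, ⟨?_, ?_⟩, ?_⟩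
    · obtain ⟨w, hw1, hw2⟩ := hfar
      exact ⟨w, hw1, (Reach.symm hv).trans hw2⟩
    · intro w hw
      have hw0 : Reach (↑F : Set Edg) v0 w := Reach.trans hv hw
      exact ⟨h3 w hw0, h4 w hw0⟩
    · rw [← cluster_eq hv]
      exact hW
  · right
    set g : LSym := rfy n with hg
    have hgv : ∀ x : Vtx, g.ψ x = (x.1, n - x.2) := fun x => rfl
    have hinv : ∀ x : Vtx, g.ψ (g.ψ x) = x := by
      intro x
      rw [hgv, hgv]
      ext
      · rfl
      · simp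
    have hR : ∀ u w : Vtx, Reach (↑(g.mp F) : Set Edg) (g.ψ u) w ↔
        Reach (↑F : Set Edg) u (g.ψ w) := by
      intro u w
      have := reach_mp (g := g) (F := F) (u := u) (v := g.ψ w)
      rw [hinv] at this
      exact this
    refine ⟨g.ψ v', Finset.mem_filter.2 ⟨mem_bx.2 ?_, ?_⟩, ⟨?_, ?_⟩, ?_⟩
    · rw [hgv]
      unfold inR at hvin' ⊢
      simp only
      omega
    · rw [hgv]
      simp only
      omega
    · obtain ⟨w, hw1, hw2⟩ := hfar
      refine ⟨g.ψ w, ?_, reach_mp.2 ((Reach.symm hv').trans hw2)⟩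
      rw [hgv, hgv]
      simp only
      omega
    · intro w hw
      rw [hR] at hw
      have hw0 : Reach (↑F : Set Edg) v0 (g.ψ w) := Reach.trans hv' hw
      have k1 := h3 _ hw0
      rw [hgv] at k1
      rw [hgv]
      simp only at k1 ⊢
      refine ⟨by omega, fun h => ?_⟩
      have k2 := h5 _ hw0 (by rw [hgv]; simp only; omega)
      rw [hgv] at k2
      simp only at k2
      omega
    · intro hcon
      apply hW
      refine witD_of_image (g := g) (iso_rfy n) (D' := {w | Reach (↑(g.mp F) : Set Edg) (g.ψ v') w})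
        (fun x => ?_) hcon
      rw [Set.mem_setOf_eq, Set.mem_setOf_eq]
      have : Reach (↑(g.mp F) : Set Edg) (g.ψ v') (g.ψ x) ↔ Reach (↑F : Set Edg) v' x := reach_mp
      refine this.trans ⟨fun h => Reach.trans hv' h, fun h => (Reach.symm hv').trans h⟩

/-- The four cases. -/
theorem fourX {n m : ℕ} {F : Finset Edg} (hF : F ⊆ RE 0 n 0 n) {v0 a b : Vtx}
    (hv0 : inR 0 n 0 n v0) (ha : Reach (↑F : Set Edg) v0 a) (hb : Reach (↑F : Set Edg) v0 b)
    (hab : (m : ℤ) ≤ sd a b) {l : ℕ} {c E : ℝ}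
    (hW : ¬ WitD n l c E {w | Reach (↑F : Set Edg) v0 w}) :
    (EvX n m l c E F ∨ EvX n m l c E ((rfy n).mp F)) ∨
      (EvX n m l c E (tps.mp F) ∨ EvX n m l c E ((rfy n).mp (tps.mp F))) := by
  unfold sd at hab
  rcases le_max_iff.1 hab with h | h
  · left
    exact horizontalX hF hv0 ha hb h hW
  · right
    have hF' : tps.mp F ⊆ RE 0 n 0 n := by
      have := tps.mp_mono hF
      rwa [tps_RE] at this
    refine horizontalX hF' (v0 := tps.ψ v0) (a := tps.ψ a) (b := tps.ψ b) ?_ (reach_mp.2 ha)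
      (reach_mp.2 hb) ?_ ?_
    · obtain ⟨x, y⟩ := v0
      unfold inR at hv0 ⊢
      simp only [tps_ψ]
      simp only at hv0
      omega
    · obtain ⟨x, y⟩ := a
      obtain ⟨x', y'⟩ := b
      simpa using h
    · intro hcon
      apply hW
      refine witD_of_image (g := tps) iso_tps (D' := {w | Reach (↑(tps.mp F) : Set Edg) (tps.ψ v0) w})
        (fun x => ?_) hcon
      rw [Set.mem_setOf_eq, Set.mem_setOf_eq]
      exact reach_mp

theorem pr_fourX {n m : ℕ} {l : ℕ} {c E : ℝ} :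
    PQ (1 / 2) (RE 0 n 0 n) (fun F =>
      (EvX n m l c E F ∨ EvX n m l c E ((rfy n).mp F)) ∨
      (EvX n m l c E (tps.mp F) ∨ EvX n m l c E ((rfy n).mp (tps.mp F)))) ≤
      4 * PQ (1 / 2) (RE 0 n 0 n) (EvX n m l c E) := by
  have h1 := Pr_or_le okh (RE 0 n 0 n)
    (fun F => EvX n m l c E F ∨ EvX n m l c E ((rfy n).mp F))
    (fun F => EvX n m l c E (tps.mp F) ∨ EvX n m l c E ((rfy n).mp (tps.mp F)))
  have h2 := Pr_or_le okh (RE 0 n 0 n)
    (EvX n m l c E) (fun F => EvX n m l c E ((rfy n).mp F))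
  have h3 : PQ (1 / 2) (RE 0 n 0 n) (fun F => EvX n m l c E (tps.mp F) ∨
      EvX n m l c E ((rfy n).mp (tps.mp F))) =
      PQ (1 / 2) (RE 0 n 0 n) (fun F => EvX n m l c E F ∨ EvX n m l c E ((rfy n).mp F)) :=
    pr_inv (tps_RE _ _ _ _) (fun F => EvX n m l c E F ∨ EvX n m l c E ((rfy n).mp F))
  have h4 : PQ (1 / 2) (RE 0 n 0 n) (fun F => EvX n m l c E ((rfy n).mp F)) =
      PQ (1 / 2) (RE 0 n 0 n) (EvX n m l c E) := pr_inv (rfy_box n) _
  have h1' : PQ (1 / 2) (RE 0 n 0 n) (fun F =>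
      (EvX n m l c E F ∨ EvX n m l c E ((rfy n).mp F)) ∨
      (EvX n m l c E (tps.mp F) ∨ EvX n m l c E ((rfy n).mp (tps.mp F)))) ≤
      PQ (1 / 2) (RE 0 n 0 n) (fun F => EvX n m l c E F ∨ EvX n m l c E ((rfy n).mp F)) +
      PQ (1 / 2) (RE 0 n 0 n) (fun F => EvX n m l c E (tps.mp F) ∨
        EvX n m l c E ((rfy n).mp (tps.mp F))) := h1
  have h2' : PQ (1 / 2) (RE 0 n 0 n) (fun F => EvX n m l c E F ∨
      EvX n m l c E ((rfy n).mp F)) ≤ PQ (1 / 2) (RE 0 n 0 n) (EvX n m l c E) +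
      PQ (1 / 2) (RE 0 n 0 n) (fun F => EvX n m l c E ((rfy n).mp F)) := h2
  linarith

/-- ASM. -/
theorem t_ASMX (hT : S_TOUCH) (hN : S_NUM) (hC : S_COREX) : S_DWX := by
  intro η hη
  obtain ⟨c1, hc1, hc1', hcore⟩ := hC
  -- parameters
  set η' : ℝ := min η 1 with hη'
  have hη0 : 0 < η' := lt_min hη one_pos
  have hη1 : η' ≤ 1 := min_le_right _ _
  have hηη : η' ≤ η := min_le_left _ _
  obtain ⟨Cn, hCn, hnum⟩ := hN (η' / 2) (by positivity)
  obtain ⟨J, hJ⟩ := exists_pow_lt_of_lt_one (show 0 < η' / (8 * Cn) by positivity)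
    (show 1 - c1 < 1 by linarith)
  set D : ℕ := 64 * 2 ^ J with hD
  have hDpos : 0 < D := by rw [hD]; positivity
  have hDR : (0:ℝ) < D := by exact_mod_cast hDpos
  set σ : ℝ := η' / (4 * D) with hσ
  have hσ0 : 0 < σ := by positivity
  obtain ⟨θ, nT, hθ, hT⟩ := hT (η' / (8 * (J + 1))) (by positivity) σ hσ0
  obtain ⟨c, E, nC, hc0, hE, hcore⟩ := hcore θ σ hθ hσ0
  obtain ⟨n1, hn1⟩ := exists_nat_gt (4 * D / η')
  refine ⟨c, E, max (max nT nC) (max n1 1), hc0, hE, fun n hn l hl => ?_⟩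
  rw [max_le_iff, max_le_iff, max_le_iff] at hn
  obtain ⟨⟨hnT, hnC⟩, hnn1, hn1'⟩ := hn
  have hnR : (1:ℝ) ≤ n := by exact_mod_cast hn1'
  have hnpos : (0:ℝ) < n := by linarith
  have hbig : 4 * D < η' * n := by
    have h1 : (n1:ℝ) ≤ n := by exact_mod_cast hnn1
    have h2 : 4 * D / η' < n := lt_of_lt_of_le hn1 h1
    rw [div_lt_iff₀ hη0] at h2
    linarith
  set m : ℕ := ⌊η' * n⌋₊ with hm
  have hm1 : (m:ℝ) ≤ η' * n := Nat.floor_le (by positivity)
  have hm2 : η' * n < m + 1 := Nat.lt_floor_add_one _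
  have hD1 : (64:ℝ) ≤ D := by
    have h1 : 64 ≤ D := by
      rw [hD]
      have : 1 ≤ 2 ^ J := Nat.one_le_two_pow
      omega
    exact_mod_cast h1
  have hmhalf : η' / 2 * n ≤ m := by nlinarith
  have hmn : m ≤ n := by
    have : (m:ℝ) ≤ n := by nlinarith
    exact_mod_cast this
  set ρ : ℕ := m / D with hρ
  have hρ1 : D * ρ ≤ m := by rw [hρ]; exact Nat.mul_div_le m D
  have hρ2 : m < D * (ρ + 1) := by rw [hρ]; exact Nat.lt_mul_div_succ m hDpos
  have hρσ : σ * n ≤ ρ := by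
    have h1 : (m:ℝ) < D * (ρ + 1) := by exact_mod_cast hρ2
    have h2 : η' * n - 1 < D * (ρ + 1) := by linarith
    rw [hσ, div_mul_eq_mul_div, div_le_iff₀ (by positivity)]
    nlinarith
  -- the bad event
  have hbad : PQ (1 / 2) (RE 0 n 0 n) (EvX n m l c E) ≤ η' / 4 := by
    classical
    set I : Finset Vtx := (Finset.Icc (0:ℤ) n ×ˢ Finset.Icc (0:ℤ) n).filter
      (fun v : Vtx => (n : ℤ) ≤ 2 * v.2) with hI
    have h1 : PQ (1 / 2) (RE 0 n 0 n) (EvX n m l c E) ≤ ∑ v ∈ I,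
        PQ (1 / 2) (RE 0 n 0 n) (fun F => Lf v m (↑F : Set Edg) ∧
          ¬ WitD n l c E {w | Reach (↑F : Set Edg) v w}) :=
      Pr_exists_le okh _ I _
    have h2 : ∀ v ∈ I, PQ (1 / 2) (RE 0 n 0 n) (fun F => Lf v m (↑F : Set Edg) ∧
          ¬ WitD n l c E {w | Reach (↑F : Set Edg) v w}) ≤
        (∑ j ∈ Finset.range J, PQ (1 / 2) (RE 0 n 0 n) (fun F => Lf v m (↑F : Set Edg) ∧
          Tch v m ⌊θ * n⌋ (v.2 - 17 * (2 ^ j * ρ : ℕ)) (v.2 - 13 * (2 ^ j * ρ : ℕ)) F)) +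
        (1 - c1) ^ J * PQ (1 / 2) (RE 0 n 0 n) (fun F => Lf v m (↑F : Set Edg)) := by
      intro v hv
      rw [hI, Finset.mem_filter] at hv
      have h3 := hcore n hnC l hl m ρ J hρσ (by rw [← hD]; exact hρ1) hmn v hv.1 hv.2
      refine le_trans ?_ (add_le_add_right h3 _)
      refine le_trans ?_ (add_le_add_left (Pr_exists_le okh (RE 0 n 0 n) (Finset.range J)
        (fun j F => Lf v m (↑F : Set Edg) ∧
          Tch v m ⌊θ * n⌋ (v.2 - 17 * (2 ^ j * ρ : ℕ)) (v.2 - 13 * (2 ^ j * ρ : ℕ)) F)) _)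
      refine le_trans ?_ (Pr_or_le okh _ _ _)
      apply Pr_mono okh
      rintro F hF ⟨hL, hW⟩
      by_cases htc : ∃ j ∈ Finset.range J, Lf v m (↑F : Set Edg) ∧
          Tch v m ⌊θ * n⌋ (v.2 - 17 * (2 ^ j * ρ : ℕ)) (v.2 - 13 * (2 ^ j * ρ : ℕ)) F
      · exact Or.inl htc
      · right
        refine ⟨hL, fun j hj hcon => htc ⟨j, Finset.mem_range.2 hj, hL, hcon⟩, hW⟩
    refine h1.trans ((Finset.sum_le_sum h2).trans ?_)
    rw [Finset.sum_add_distrib, Finset.sum_comm, ← Finset.mul_sum]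
    have h4 : ∀ j ∈ Finset.range J, ∑ v ∈ I, PQ (1 / 2) (RE 0 n 0 n)
        (fun F => Lf v m (↑F : Set Edg) ∧
          Tch v m ⌊θ * n⌋ (v.2 - 17 * (2 ^ j * ρ : ℕ)) (v.2 - 13 * (2 ^ j * ρ : ℕ)) F) ≤
        η' / (8 * (J + 1)) := by
      intro j hj
      rw [Finset.mem_range] at hj
      have hpow : (2:ℕ) ^ j ≤ 2 ^ J := Nat.pow_le_pow_right (by norm_num) hj.le
      have hone : (1:ℕ) ≤ 2 ^ j := Nat.one_le_two_pow
      have h5 : σ * n ≤ ((2 ^ j * ρ : ℕ) : ℝ) := by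
        refine hρσ.trans ?_
        have : ρ ≤ 2 ^ j * ρ := Nat.le_mul_of_pos_left _ hone
        exact_mod_cast this
      have h6 : 64 * (2 ^ j * ρ) ≤ m := by
        refine le_trans ?_ hρ1
        rw [hD]
        calc 64 * (2 ^ j * ρ) ≤ 64 * (2 ^ J * ρ) := by gcongr
          _ = 64 * 2 ^ J * ρ := by ring
      exact hT n hnT m (2 ^ j * ρ) h5 h6 hmn
    have h7 : ∑ j ∈ Finset.range J, ∑ v ∈ I, PQ (1 / 2) (RE 0 n 0 n)
        (fun F => Lf v m (↑F : Set Edg) ∧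
          Tch v m ⌊θ * n⌋ (v.2 - 17 * (2 ^ j * ρ : ℕ)) (v.2 - 13 * (2 ^ j * ρ : ℕ)) F) ≤
        η' / 8 := by
      refine (Finset.sum_le_sum h4).trans ?_
      rw [Finset.sum_const, Finset.card_range, nsmul_eq_mul]
      have hJ1 : (0:ℝ) < J + 1 := by positivity
      rw [← div_div]
      have : (J:ℝ) * (η' / 8 / (J + 1)) = (η' / 8) * (J / (J + 1)) := by
        field_simp
      rw [this]
      have h8 : (J:ℝ) / (J + 1) ≤ 1 := by
        rw [div_le_one hJ1]; linarith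
      nlinarith
    have h8 : ∑ v ∈ I, PQ (1 / 2) (RE 0 n 0 n) (fun F => Lf v m (↑F : Set Edg)) ≤ Cn := by
      refine le_trans (Finset.sum_le_sum_of_subset_of_nonneg (Finset.filter_subset _ _) ?_)
        (hnum n hn1' m hmhalf)
      intro v _ _
      exact Pr_nonneg okh _ _
    have h9 : (1 - c1) ^ J * ∑ v ∈ I, PQ (1 / 2) (RE 0 n 0 n) (fun F => Lf v m (↑F : Set Edg)) ≤
        η' / 8 := by
      have h10 : (0:ℝ) ≤ (1 - c1) ^ J := pow_nonneg (by linarith) _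
      calc (1 - c1) ^ J * ∑ v ∈ I, PQ (1 / 2) (RE 0 n 0 n) (fun F => Lf v m (↑F : Set Edg))
          ≤ (1 - c1) ^ J * Cn := mul_le_mul_of_nonneg_left h8 h10
        _ ≤ η' / (8 * Cn) * Cn := mul_le_mul_of_nonneg_right hJ.le hCn.le
        _ = η' / 8 := by field_simp
    linarith
  -- conclusion
  refine le_trans (Plain.prob_le_of_pr (B := fun F =>
      (EvX n m l c E F ∨ EvX n m l c E ((rfy n).mp F)) ∨
      (EvX n m l c E (tps.mp F) ∨ EvX n m l c E ((rfy n).mp (tps.mp F)))) ?_) ?_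
  · rintro F hF ⟨v, hv, ⟨a, ha, b, hb, hab⟩, hW⟩
    rw [Plain.edges_eq] at hF
    have hcl : Plain.cluster F v = {w | Reach (↑F : Set Edg) v w} := by
      ext w
      exact Plain.mem_cluster F v w
    rw [hcl] at hW
    refine fourX hF (mem_bx.1 hv) ((Plain.mem_cluster F v a).1 ha) ((Plain.mem_cluster F v b).1 hb)
      ?_ hW
    have h1 : (m:ℝ) ≤ ((sd a b : ℤ) : ℝ) := by
      refine le_trans hm1 (le_trans ?_ hab)
      exact mul_le_mul_of_nonneg_right hηη hnpos.le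
    exact_mod_cast h1
  · refine (pr_fourX (n := n) (m := m)).trans ?_
    linarith


end Pool.Agent.V5helper72.OA
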