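import Pool.Agent.V5helper72.OB.BoxA

/-!
# Accessible vertices of all large clusters: the event in one box, with the number of the pairs at
distance at most `l` (helper72)
-/

set_option autoImplicit false

namespace Pool.Agent.V5helper72.OA

open H974 H973 H12S H934E Finset H984P H984N
open Pool.Agent.Y989.FR (AE Clu A3v Awy Acc TkA cl S_ACC S_THK S_U3)
open Pool.Agent.V5helper99.OB Pool.Agent.V5helper72.OB

/-- The number of the pairs at distance at most `l`. -/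
noncomputable def Pc (l : ℕ) (V : Finset Vtx) : ℝ :=
  ∑ v ∈ V, ∑ w ∈ V, if sd v w ≤ l then 1 else 0

theorem Pc_nonneg (l : ℕ) (V : Finset Vtx) : 0 ≤ Pc l V :=
  Finset.sum_nonneg fun _ _ => Finset.sum_nonneg fun _ _ => by split_ifs <;> norm_num

theorem Pc_mono {l : ℕ} {V W : Finset Vtx} (h : V ⊆ W) : Pc l V ≤ Pc l W := by
  unfold Pc
  refine (Finset.sum_le_sum fun v _ => Finset.sum_le_sum_of_subset_of_nonneg h
    fun _ _ _ => by split_ifs <;> norm_num).trans ?_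
  exact Finset.sum_le_sum_of_subset_of_nonneg h fun _ _ _ =>
    Finset.sum_nonneg fun _ _ => by split_ifs <;> norm_num

/-- The cluster `C` of the box `T` has many vertices accessible through the mouth. -/
def GoodX (N r : ℕ) (c0 E0 : ℝ) (a l : ℕ) (Z : Finset (ℤ × ℤ)) (yh : ℤ) (C : Finset Vtx) : Prop :=
  (∀ x ∈ C, x ∉ rgn Z a 16) ∧ (∃ w ∈ C, sd w (0, 0) ≤ (r * a : ℕ)) ∧
    ∃ V ⊆ C, c0 * (a : ℝ) ^ (4 / 3 : ℝ) ≤ (V.card : ℝ) ∧
      Pc l V ≤ E0 * ((a : ℝ) * l) ^ (4 / 3 : ℝ) ∧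
      ∀ w ∈ V, ∃ p : Vtx, p ∉ C ∧ Adj Set.univ p w ∧
        ∃ y ∈ rgn {(-(N : ℤ), yh)} a 1, Reach (AvE r a Z C) p y

/-- The box event for a property of the cluster. -/
def BvX (GX : Finset Vtx → Prop) (N r a : ℕ) (Z : Finset (ℤ × ℤ)) (yh : ℤ) (G : Finset Edg) :
    Prop :=
  ∃ C : Finset Vtx, IsT N a ↑G C ∧ GX C ∧ Esc N r a Z yh C ↑G

/-- BOXX: the event in one box. -/
def S_BOXX : Prop := ∃ (N r a0 : ℕ) (c0 E0 p : ℝ), 8 ≤ r ∧ 64 * r ≤ N ∧ 1 ≤ a0 ∧ 0 < c0 ∧ 0 < E0 ∧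
    0 < p ∧ ∀ l : ℕ, 1 ≤ l → ∀ a : ℕ, a0 ≤ a → ∃ (Z : Finset (ℤ × ℤ)) (yh : ℤ), Pat N Z yh ∧
      p ≤ PQ (1 / 2) (V5helper99.OB.TP N a) (BvX (GoodX N r c0 E0 a l Z yh) N r a Z yh)

/-! ### Sums -/

theorem two_l {a : ℝ} (ha : 0 ≤ a) (ha1 : a < 2) (l : ℕ) (hl : 1 ≤ l) (v : Vtx) (J : Finset Vtx)
    (hJ : ∀ w ∈ J, sd v w ≤ l) :
    ∑ w ∈ J, ((max (sd v w) 1 : ℤ) : ℝ) ^ (-a) ≤
      (1 + 4 / (1 - a / 2)) ^ 2 * (l : ℝ) ^ (2 - a) := by
  have hh0 : (0:ℝ) < l := by exact_mod_cast hl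
  have hsub : J ⊆ Finset.Icc (v.1 - l) (v.1 + l) ×ˢ Finset.Icc (v.2 - l) (v.2 + l) := by
    intro w hw
    have h1 := hJ w hw
    rw [sd_le_iff] at h1
    rw [Finset.mem_product, Finset.mem_Icc, Finset.mem_Icc]
    omega
  have b0 : 0 ≤ a / 2 := by linarith
  have b1 : a / 2 < 1 := by linarith
  have s1 := t5_one b0 b1 (l : ℤ) (by omega) v.1 (Finset.Icc (v.1 - (l : ℤ)) (v.1 + l)) (by
    intro l' hl'
    rw [Finset.mem_Icc] at hl'
    rw [abs_le]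
    omega)
  have s2 := t5_one b0 b1 (l : ℤ) (by omega) v.2 (Finset.Icc (v.2 - (l : ℤ)) (v.2 + l)) (by
    intro l' hl'
    rw [Finset.mem_Icc] at hl'
    rw [abs_le]
    omega)
  rw [Int.cast_natCast] at s1 s2
  have key : ∀ w : Vtx, ((max (sd v w) 1 : ℤ) : ℝ) ^ (-a) ≤
      ((max |v.1 - w.1| 1 : ℤ) : ℝ) ^ (-(a / 2)) * ((max |v.2 - w.2| 1 : ℤ) : ℝ) ^ (-(a / 2)) := by
    intro w
    have m1 : ((max |v.1 - w.1| 1 : ℤ) : ℝ) ≤ ((max (sd v w) 1 : ℤ) : ℝ) := by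
      have : max |v.1 - w.1| 1 ≤ max (sd v w) 1 := max_le_max (le_max_left _ _) le_rfl
      exact_mod_cast this
    have m2 : ((max |v.2 - w.2| 1 : ℤ) : ℝ) ≤ ((max (sd v w) 1 : ℤ) : ℝ) := by
      have : max |v.2 - w.2| 1 ≤ max (sd v w) 1 := max_le_max (le_max_right _ _) le_rfl
      exact_mod_cast this
    have e : ((max (sd v w) 1 : ℤ) : ℝ) ^ (-a) =
        ((max (sd v w) 1 : ℤ) : ℝ) ^ (-(a / 2)) * ((max (sd v w) 1 : ℤ) : ℝ) ^ (-(a / 2)) := by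
      rw [← Real.rpow_add (t5_max_pos _)]
      congr 1
      ring
    rw [e]
    exact mul_le_mul
      (Real.rpow_le_rpow_of_nonpos (t5_max_pos _) m1 (by linarith))
      (Real.rpow_le_rpow_of_nonpos (t5_max_pos _) m2 (by linarith))
      (Real.rpow_nonneg (t5_max_nonneg _) _) (Real.rpow_nonneg (t5_max_nonneg _) _)
  have h0 : 0 ≤ ∑ l' ∈ Finset.Icc (v.2 - (l : ℤ)) (v.2 + l),
      ((max |v.2 - l'| 1 : ℤ) : ℝ) ^ (-(a / 2)) :=
    Finset.sum_nonneg (fun _ _ => Real.rpow_nonneg (t5_max_nonneg _) _)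
  calc ∑ w ∈ J, ((max (sd v w) 1 : ℤ) : ℝ) ^ (-a)
      ≤ ∑ w ∈ Finset.Icc (v.1 - (l : ℤ)) (v.1 + l) ×ˢ Finset.Icc (v.2 - (l : ℤ)) (v.2 + l),
        ((max (sd v w) 1 : ℤ) : ℝ) ^ (-a) :=
        Finset.sum_le_sum_of_subset_of_nonneg hsub
          fun _ _ _ => Real.rpow_nonneg (t5_max_nonneg _) _
    _ ≤ ∑ w ∈ Finset.Icc (v.1 - (l : ℤ)) (v.1 + l) ×ˢ Finset.Icc (v.2 - (l : ℤ)) (v.2 + l),
        ((max |v.1 - w.1| 1 : ℤ) : ℝ) ^ (-(a / 2)) * ((max |v.2 - w.2| 1 : ℤ) : ℝ) ^ (-(a / 2)) :=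
        Finset.sum_le_sum (fun w _ => key w)
    _ = (∑ l' ∈ Finset.Icc (v.1 - (l : ℤ)) (v.1 + l),
          ((max |v.1 - l'| 1 : ℤ) : ℝ) ^ (-(a / 2))) *
        ∑ l' ∈ Finset.Icc (v.2 - (l : ℤ)) (v.2 + l),
          ((max |v.2 - l'| 1 : ℤ) : ℝ) ^ (-(a / 2)) := by
        rw [Finset.sum_product, Finset.sum_mul_sum]
    _ ≤ ((1 + 4 / (1 - a / 2)) * (l : ℝ) ^ (1 - a / 2)) *
        ((1 + 4 / (1 - a / 2)) * (l : ℝ) ^ (1 - a / 2)) :=
        mul_le_mul s1 s2 h0 (h0.trans s2)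
    _ = (1 + 4 / (1 - a / 2)) ^ 2 * ((l : ℝ) ^ (1 - a / 2) * (l : ℝ) ^ (1 - a / 2)) := by ring
    _ = _ := by
        rw [← Real.rpow_add hh0]
        congr 2
        ring

section
variable (E : Vtx → Finset Edg → Prop)

theorem Pc_VF (l R : ℕ) (F : Finset Edg) :
    Pc l (VF E R F) = ∑ v ∈ core R, ∑ w ∈ (core R).filter (fun w => sd v w ≤ l),
      ind (E v F ∧ E w F) := by
  classical
  unfold Pc VF
  rw [Finset.sum_filter]
  apply Finset.sum_congr rfl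
  intro v _
  by_cases hv : E v F
  · rw [if_pos hv, Finset.sum_filter, Finset.sum_filter]
    apply Finset.sum_congr rfl
    intro w _
    by_cases hw : E w F
    · rw [if_pos hw, ind_of ⟨hv, hw⟩]
    · rw [if_neg hw, ind_not_of (fun h => hw h.2)]
      split_ifs <;> rfl
  · rw [if_neg hv]
    symm
    apply Finset.sum_eq_zero
    intro w _
    rw [ind_not_of (fun h => hv h.1)]

/-- expectation of the number of pairs -/
theorem Pc_EE {C : ℝ} (hC : 0 < C) {R l : ℕ} (hR : 1 ≤ R) (hl : 1 ≤ l)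
    {S : Finset Edg} (h2 : ∀ v ∈ core R, ∀ w ∈ core R, PQ (1 / 2) S (fun F => E v F ∧ E w F) ≤
      C * ((max (sd v w) 1 : ℤ) : ℝ) ^ (-(2 / 3) : ℝ) * (R : ℝ) ^ (-(2 / 3) : ℝ)) :
    EE S (fun F => Pc l (VF E R F)) ≤ 441 * C * ((R : ℝ) * l) ^ (4 / 3 : ℝ) := by
  have ha0 : (0:ℝ) < R := by exact_mod_cast hR
  have ha1 : (1:ℝ) ≤ R := by exact_mod_cast hR
  have hl0 : (0:ℝ) < l := by exact_mod_cast hl
  have e1 : EE S (fun F => Pc l (VF E R F)) = ∑ v ∈ core R,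
      ∑ w ∈ (core R).filter (fun w => sd v w ≤ l), Q S (fun F => E v F ∧ E w F) := by
    have e0 : EE S (fun F => Pc l (VF E R F)) = EE S (fun F => ∑ v ∈ core R,
      ∑ w ∈ (core R).filter (fun w => sd v w ≤ l), ind (E v F ∧ E w F)) := by
      congr 1
      funext F
      exact Pc_VF E l R F
    rw [e0]
    unfold H934E.EE
    rw [Ex_sum]
    apply Finset.sum_congr rfl
    intro v _
    rw [Ex_sum]
    rfl
  rw [e1]
  have h3 : ∀ v ∈ core R, ∑ w ∈ (core R).filter (fun w => sd v w ≤ l),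
      Q S (fun F => E v F ∧ E w F) ≤
      C * (R : ℝ) ^ (-(2 / 3) : ℝ) * (49 * (l : ℝ) ^ (4 / 3 : ℝ)) := by
    intro v hv
    have i1 := two_l (a := 2 / 3) (by norm_num) (by norm_num) l hl v
      ((core R).filter (fun w => sd v w ≤ l)) (fun w hw => (Finset.mem_filter.1 hw).2)
    have e2 : (1 + 4 / (1 - (2 / 3 : ℝ) / 2)) ^ 2 * (l : ℝ) ^ (2 - 2 / 3 : ℝ) =
        49 * (l : ℝ) ^ (4 / 3 : ℝ) := by
      norm_num
    rw [e2] at i1
    refine le_trans ?_ (mul_le_mul_of_nonneg_left i1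
      (mul_nonneg hC.le (Real.rpow_nonneg ha0.le _)))
    rw [Finset.mul_sum]
    apply Finset.sum_le_sum
    intro w hw
    have i2 := h2 v hv w (Finset.mem_filter.1 hw).1
    refine le_trans i2 (le_of_eq ?_)
    ring
  refine (Finset.sum_le_sum h3).trans ?_
  rw [Finset.sum_const, nsmul_eq_mul, card_core]
  have e3 : (R : ℝ) ^ 2 * (R : ℝ) ^ (-(2 / 3) : ℝ) = (R : ℝ) ^ (4 / 3 : ℝ) := by
    rw [← Real.rpow_natCast, ← Real.rpow_add ha0]
    congr 1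
    norm_num
  have h4 : (2 * (R : ℝ) + 1) ^ 2 ≤ 9 * (R : ℝ) ^ 2 := by nlinarith
  have h5 : 0 ≤ C * (R : ℝ) ^ (-(2 / 3) : ℝ) * (49 * (l : ℝ) ^ (4 / 3 : ℝ)) := by
    have := Real.rpow_nonneg ha0.le (-(2 / 3) : ℝ)
    have := Real.rpow_nonneg hl0.le (4 / 3 : ℝ)
    positivity
  calc (2 * (R : ℝ) + 1) ^ 2 * (C * (R : ℝ) ^ (-(2 / 3) : ℝ) * (49 * (l : ℝ) ^ (4 / 3 : ℝ)))
      ≤ (9 * (R : ℝ) ^ 2) * (C * (R : ℝ) ^ (-(2 / 3) : ℝ) * (49 * (l : ℝ) ^ (4 / 3 : ℝ))) :=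
        mul_le_mul_of_nonneg_right h4 h5
    _ = 441 * C * (((R : ℝ) ^ 2 * (R : ℝ) ^ (-(2 / 3) : ℝ)) * (l : ℝ) ^ (4 / 3 : ℝ)) := by ring
    _ = _ := by rw [e3, Real.mul_rpow ha0.le hl0.le]

/-- second moment method -/
theorem sec_momX {A C0 Ct Y : ℝ} (hA0 : 0 < A) (hC0 : 0 < C0) (hCt : 0 < Ct) (hY : 0 < Y) {R : ℕ}
    (hR : 1 ≤ R) {S : Finset Edg} {W : Finset Edg → ℝ} (hW0 : ∀ F, 0 ≤ W F)
    (h1 : A * (R : ℝ) ^ (4 / 3 : ℝ) ≤ ∑ v ∈ core R, PQ (1 / 2) S (fun F => E v F))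
    (hE0 : EE S (fun F => En 0 (VF E R F)) ≤ C0 * (R : ℝ) ^ (8 / 3 - (0 : ℝ)))
    (hEt : EE S W ≤ Ct * Y) :
    A ^ 2 / (4 * C0) / 2 ≤ PQ (1 / 2) S (fun F => A / 2 * (R : ℝ) ^ (4 / 3 : ℝ) ≤
      ((VF E R F).card : ℝ) ∧ W F ≤ Ct / (A ^ 2 / (4 * C0) / 2) * Y) := by
  set p : ℝ := A ^ 2 / (4 * C0) / 2 with hp
  have hp0 : 0 < p := by positivity
  have hm0 : (0:ℝ) < R := by exact_mod_cast hR
  have hU : 0 < (R : ℝ) ^ (4 / 3 : ℝ) := Real.rpow_pos_of_pos hm0 _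
  have hU2 : (R : ℝ) ^ (4 / 3 : ℝ) * (R : ℝ) ^ (4 / 3 : ℝ) = (R : ℝ) ^ (8 / 3 - (0:ℝ)) := by
    rw [← Real.rpow_add hm0]; norm_num
  set X : Finset Edg → ℝ := fun F => ((VF E R F).card : ℝ) with hX
  have hX0 : ∀ F, 0 ≤ X F := fun F => Nat.cast_nonneg _
  -- first moment
  have l1 : A * (R : ℝ) ^ (4 / 3 : ℝ) ≤ EE S X := by
    have e1 : EE S X = ∑ v ∈ core R, Q S (fun F => E v F) := by
      have e0 : EE S X = EE S (fun F => ∑ v ∈ core R, ind (E v F)) := by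
        congr 1
        funext F
        exact t5_N E R F
      rw [e0]
      unfold H934E.EE
      rw [Ex_sum]
      rfl
    rw [e1]
    exact h1
  -- second moment
  have l2 : EE S (fun F => X F * X F) ≤ C0 * (R : ℝ) ^ (8 / 3 - (0:ℝ)) := by
    refine le_trans (le_of_eq ?_) hE0
    congr 1
    funext F
    exact t5_sq E R F
  have k := paley (S := S) (f := X) (fun F _ => hX0 F)
    (m := A * (R : ℝ) ^ (4 / 3 : ℝ)) (V := C0 * (R : ℝ) ^ (8 / 3 - (0:ℝ)))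
    (by positivity) (by positivity) l1 l2
  have e3 : (A * (R : ℝ) ^ (4 / 3 : ℝ)) ^ 2 /
      (4 * (C0 * (R : ℝ) ^ (8 / 3 - (0:ℝ)))) = 2 * p := by
    rw [← hU2, hp]
    field_simp
  rw [e3] at k
  -- the number of pairs
  have i2 := markov (S := S) (f := W) (fun F _ => hW0 F) (t := Ct / p * Y) (by positivity)
  have i3 : EE S W / (Ct / p * Y) ≤ p := by
    rw [div_le_iff₀ (by positivity)]
    refine hEt.trans (le_of_eq ?_)
    field_simp
  have i4 : Q S (fun F => A * (R : ℝ) ^ (4 / 3 : ℝ) / 2 ≤ X F) ≤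
      Q S (fun F => A / 2 * (R : ℝ) ^ (4 / 3 : ℝ) ≤ ((VF E R F).card : ℝ) ∧
        W F ≤ Ct / p * Y) +
      Q S (fun F => Ct / p * Y ≤ W F) := by
    refine le_trans ?_ (Pr_or_le okhalf S _ _)
    apply Q_mono
    intro F _ hF
    by_cases h5 : W F ≤ Ct / p * Y
    · left
      refine ⟨?_, h5⟩
      refine le_trans (le_of_eq ?_) hF
      ring
    · exact Or.inr (le_of_not_ge h5)
  have i5 : p ≤ Q S (fun F => A / 2 * (R : ℝ) ^ (4 / 3 : ℝ) ≤ ((VF E R F).card : ℝ) ∧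
        W F ≤ Ct / p * Y) := by linarith
  exact i5

end

/-- **the good event** -/
theorem goodX (hA : S_ACC) (hT : S_THK) (hU : S_U3) : ∃ (M B Λ R0 : ℕ) (c0 E0 p : ℝ), 1 ≤ M ∧
    1 ≤ B ∧ 64 ≤ Λ ∧ 1 ≤ R0 ∧ 0 < c0 ∧ 0 < E0 ∧ 0 < p ∧ ∀ l : ℕ, 1 ≤ l →
      ∀ R : ℕ, R0 ≤ R → p ≤ PQ (1 / 2) (blk (0, 0) (513 * (Λ * R))) (fun F =>
        c0 * (R : ℝ) ^ (4 / 3 : ℝ) ≤ ((VF (fun w F => Ev (512 * (Λ * R)) M B (8 * (Λ * R)) (Λ * R) R
          (Lft (Λ * R)) w ↑F) R F).card : ℝ) ∧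
        Pc l (VF (fun w F => Ev (512 * (Λ * R)) M B (8 * (Λ * R)) (Λ * R) R
          (Lft (Λ * R)) w ↑F) R F) ≤ E0 * ((R : ℝ) * l) ^ (4 / 3 : ℝ)) := by
  obtain ⟨M, B, Λ, R0, A, hM, hB, hΛ, hR0, hA0, hone⟩ := one_left hA hT hU
  obtain ⟨C, hC, htwo⟩ := two_pt hU
  set C0 : ℝ := 9 * C * (1 + 4 / (1 - ((0:ℝ) + 2 / 3) / 2)) ^ 2 with hC0
  have hC00 : 0 < C0 := by
    rw [hC0]
    positivity
  have hCt0 : 0 < 441 * C := by positivity
  refine ⟨M, B, Λ, R0, A / 2, 441 * C / (A ^ 2 / (4 * C0) / 2), A ^ 2 / (4 * C0) / 2, hM, hB, hΛ,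
    hR0, by positivity, by positivity, by positivity, ?_⟩
  intro l hl R hR
  have hR1 : 1 ≤ R := hR0.trans hR
  have hR00 : (0 : ℝ) < R := by exact_mod_cast hR1
  have hl00 : (0 : ℝ) < l := by exact_mod_cast hl
  have h1 := hone R hR
  have hnR : 64 * R ≤ Λ * R := Nat.mul_le_mul_right _ hΛ
  have h2 := fun v (hv : v ∈ core R) w (hw : w ∈ core R) =>
    htwo (512 * (Λ * R)) M B (8 * (Λ * R)) (Λ * R) R (Lft (Λ * R)) hR1 hnR (by omega) v hv w hw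
      (blk (0, 0) (513 * (Λ * R))) (blk_mono (by omega))
  have h3 : ∀ v ∈ core R, ∀ w ∈ core R, PQ (1 / 2) (blk (0, 0) (513 * (Λ * R)))
      (fun F => Ev (512 * (Λ * R)) M B (8 * (Λ * R)) (Λ * R) R (Lft (Λ * R)) v ↑F ∧
        Ev (512 * (Λ * R)) M B (8 * (Λ * R)) (Λ * R) R (Lft (Λ * R)) w ↑F) ≤
      C * ((max (sd v w) 1 : ℤ) : ℝ) ^ (-(2 / 3) : ℝ) * (R : ℝ) ^ (-(2 / 3) : ℝ) := by
    intro v hv w hw
    refine (h2 v hv w hw).trans ?_
    have h4 : ((Λ * R : ℕ) : ℝ) ^ (-(2 / 3) : ℝ) ≤ (R : ℝ) ^ (-(2 / 3) : ℝ) := by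
      refine Real.rpow_le_rpow_of_nonpos hR00 ?_ (by norm_num)
      exact_mod_cast (by omega : R ≤ Λ * R)
    exact mul_le_mul_of_nonneg_left h4 (mul_nonneg hC.le (Real.rpow_nonneg (t5_max_nonneg _) _))
  exact sec_momX _ hA0 hC00 hCt0 (Real.rpow_pos_of_pos (by positivity) _) hR1
    (fun F => Pc_nonneg l _) h1
    (t5_EE (fun w F => Ev (512 * (Λ * R)) M B (8 * (Λ * R)) (Λ * R) R (Lft (Λ * R)) w ↑F) hC
      le_rfl (by norm_num) hR1 h3)
    (Pc_EE (fun w F => Ev (512 * (Λ * R)) M B (8 * (Λ * R)) (Λ * R) R (Lft (Λ * R)) w ↑F) hC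
      hR1 hl h3)

/-! ### Passage to the accessible vertices -/

theorem card_near (q : Vtx) (V : Finset Vtx) (h : ∀ w ∈ V, sd q w ≤ 2) : V.card ≤ 25 := by
  have hsub : V ⊆ Finset.Icc (q.1 - 2) (q.1 + 2) ×ˢ Finset.Icc (q.2 - 2) (q.2 + 2) := by
    intro w hw
    have h1 := h w hw
    rw [sd_le_iff] at h1
    rw [Finset.mem_product, Finset.mem_Icc, Finset.mem_Icc]
    omega
  refine (Finset.card_le_card hsub).trans (le_of_eq ?_)
  rw [Finset.card_product, Int.card_Icc, Int.card_Icc]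
  have e1 : q.1 + 2 + 1 - (q.1 - 2) = 5 := by ring
  have e2 : q.2 + 2 + 1 - (q.2 - 2) = 5 := by ring
  rw [e1, e2]
  rfl

open Classical in
/-- the image of a set under a map which moves the points by at most `2` -/
theorem image_near {V : Finset Vtx} {f : Vtx → Vtx} (hf : ∀ w ∈ V, sd (f w) w ≤ 2) (l : ℕ)
    (hl : 1 ≤ l) : (V.card : ℝ) ≤ 25 * ((V.image f).card : ℝ) ∧
      Pc l (V.image f) ≤ Pc (5 * l) V := by
  constructor
  · have h1 : V.card ≤ 25 * (V.image f).card := by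
      refine Finset.card_le_mul_card_image V 25 (fun q hq => ?_)
      exact card_near q _ (fun w hw => by
        rw [Finset.mem_filter] at hw
        rw [← hw.2]
        exact hf w hw.1)
    exact_mod_cast h1
  · unfold Pc
    have h1 : ∀ g : Vtx → ℝ, (∀ x, 0 ≤ g x) → ∑ x ∈ V.image f, g x ≤ ∑ w ∈ V, g (f w) := by
      intro g hg
      rw [Finset.sum_comp g f]
      apply Finset.sum_le_sum
      intro b hb
      obtain ⟨w, hw, rfl⟩ := Finset.mem_image.1 hb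
      have h2 : 1 ≤ (V.filter (fun a => f a = f w)).card :=
        Finset.card_pos.2 ⟨w, Finset.mem_filter.2 ⟨hw, rfl⟩⟩
      rw [nsmul_eq_mul]
      have h3 : (1:ℝ) ≤ ((V.filter (fun a => f a = f w)).card : ℝ) := by exact_mod_cast h2
      have h4 := hg (f w)
      nlinarith
    have hnn : ∀ x y : Vtx, (0:ℝ) ≤ if sd x y ≤ l then 1 else 0 := by
      intro x y
      split_ifs <;> norm_num
    calc ∑ v ∈ V.image f, ∑ w ∈ V.image f, (if sd v w ≤ l then (1:ℝ) else 0)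
        ≤ ∑ v ∈ V.image f, ∑ w ∈ V, (if sd v (f w) ≤ l then (1:ℝ) else 0) :=
          Finset.sum_le_sum fun v _ => h1 _ (fun x => hnn v x)
      _ ≤ ∑ v ∈ V, ∑ w ∈ V, (if sd (f v) (f w) ≤ l then (1:ℝ) else 0) :=
          h1 (fun v => ∑ w ∈ V, (if sd v (f w) ≤ l then (1:ℝ) else 0))
            (fun x => Finset.sum_nonneg fun w _ => hnn x (f w))
      _ ≤ _ := by
          apply Finset.sum_le_sum
          intro v hv
          apply Finset.sum_le_sum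
          intro w hw
          by_cases h2 : sd (f v) (f w) ≤ l
          · rw [if_pos h2, if_pos]
            have h3 := sd_tri v (f v) w
            have h4 := sd_tri (f v) (f w) w
            have h5 := hf v hv
            have h6 := hf w hw
            rw [sd_comm (f v) v] at h5
            push_cast
            omega
          · rw [if_neg h2]
            split_ifs <;> norm_num

theorem BvX_local {GX : Finset Vtx → Prop} {N r : ℕ} {a : ℕ} {Z : Finset (ℤ × ℤ)} {yh : ℤ}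
    (F : Finset Edg) : BvX GX N r a Z yh F ↔ BvX GX N r a Z yh (F ∩ V5helper99.OB.TP N a) := by
  have hsub : TE N a ⊆ V5helper99.OB.TP N a := by
    unfold TE V5helper99.OB.TP
    have e1 : (N + 10) * a = N * a + 10 * a := by ring
    have e2 : (2 * N + 10) * a = 2 * N * a + 10 * a := by ring
    apply RE_subset <;> simp only [neg_le_neg_iff, Nat.cast_le] <;> omega
  have h1 : (↑(F ∩ V5helper99.OB.TP N a) : Set Edg) ∩ ↑(TE N a) = (↑F : Set Edg) ∩ ↑(TE N a) := by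
    rw [Finset.coe_inter, Set.inter_assoc, Set.inter_eq_right.2 (Finset.coe_subset.2 hsub)]
  have h2 : ∀ C : Finset Vtx, (↑(F ∩ V5helper99.OB.TP N a) : Set Edg) ∩
      {e | e ∈ V5helper99.OB.TP N a ∧ e ∉ tE N a C ∧ src e ∉ WS N r a Z yh ∧
        tgt e ∉ WS N r a Z yh} =
      (↑F : Set Edg) ∩ {e | e ∈ V5helper99.OB.TP N a ∧ e ∉ tE N a C ∧ src e ∉ WS N r a Z yh ∧
        tgt e ∉ WS N r a Z yh} := by
    intro C
    ext e
    simp only [Finset.coe_inter, Set.mem_inter_iff, Finset.mem_coe, Set.mem_ofPred_eq]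
    tauto
  unfold BvX IsT Esc
  simp only [h1, h2]

/-- **The deterministic part** -/
theorem detX {M B N r a : ℕ} (h : Num M B N r a) {F : Finset Edg} {Z : Finset (ℤ × ℤ)} {yh : ℤ}
    {V : Finset Vtx} (hne : V.Nonempty) {c0 E0 : ℝ} {l : ℕ} (hl : 1 ≤ l)
    (hV : ∀ w ∈ V, w ∈ core (r * a) ∧ Ev (512 * (N * a)) M B (8 * (N * a)) (N * a) (r * a)
      (Lft (N * a)) w ↑F ∧ PatOf M B N r a Z yh w ↑F)
    (hcard : c0 * (a : ℝ) ^ (4 / 3 : ℝ) ≤ (V.card : ℝ))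
    (hen : Pc (5 * l) V ≤ E0 * ((a : ℝ) * l) ^ (4 / 3 : ℝ)) :
    BvX (GoodX N r (c0 / 25) E0 a l Z yh) N r a Z yh F := by
  classical
  obtain ⟨C, hT, hCK, hVC, hX, hE⟩ := det' h hne (c0 := c0) (E0 := (En 0 V) / (a : ℝ) ^ (8 / 3 - (0:ℝ)))
    (t := 0) hV hcard (by
      have ha : (0:ℝ) < a := by exact_mod_cast h.ha
      rw [div_mul_cancel₀ _ (Real.rpow_pos_of_pos ha _).ne'])
  have hn : ∀ w ∈ V, NNA N r a Z yh C w := fun w hw =>
    nna h (mem_core.1 (hV w hw).1) (hV w hw).2.2 (hVC hw) (hCK w hw)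
  have hex : ∀ w : Vtx, ∃ w1 : Vtx, w ∈ V → (w1 ∈ C ∧ sd w1 w ≤ 2 ∧ ∃ p : Vtx, p ∉ C ∧
      Adj Set.univ p w1 ∧ ∃ y ∈ rgn {(-(N : ℤ), yh)} a 1, Reach (AvE r a Z C) p y) := by
    intro w
    by_cases hw : w ∈ V
    · obtain ⟨w1, h1, h2, h3⟩ := hn w hw
      exact ⟨w1, fun _ => ⟨h1, h2, h3⟩⟩
    · exact ⟨w, fun h => absurd h hw⟩
  choose f hf using hex
  obtain ⟨i1, i2⟩ := image_near (V := V) (f := f) (fun w hw => (hf w hw).2.1) l hl
  obtain ⟨w0, hw0⟩ := hne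
  refine ⟨C, hT, ⟨hX, ⟨w0, hVC hw0, mem_core.1 (hV w0 hw0).1⟩, V.image f, ?_, ?_, i2.trans hen, ?_⟩,
    hE⟩
  · intro x hx
    obtain ⟨w, hw, rfl⟩ := Finset.mem_image.1 hx
    exact (hf w hw).1
  · have : c0 / 25 * (a : ℝ) ^ (4 / 3 : ℝ) = (c0 * (a : ℝ) ^ (4 / 3 : ℝ)) / 25 := by ring
    rw [this]
    linarith
  · intro x hx
    obtain ⟨w, hw, rfl⟩ := Finset.mem_image.1 hx
    exact (hf w hw).2.2

/-- **BOXX** -/
theorem t_BOXXc (hA : S_ACC) (hT : S_THK) (hU : S_U3) : S_BOXX := by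
  classical
  obtain ⟨M, B, Λ, R0, c0, E0, p, hM, hB, hΛ, hR0, hc0, hE0, hp, hgood⟩ := goodX hA hT hU
  obtain ⟨b, rfl⟩ : ∃ b, B = b + 1 := ⟨B - 1, by omega⟩
  -- the numbers
  obtain ⟨r, hr⟩ : ∃ r : ℕ, r = 20 * 2 ^ (b + 1) * M * (64 * Λ) ^ b := ⟨_, rfl⟩
  have hr8 : 8 ≤ r := by
    have h1 : 1 ≤ 2 ^ (b + 1) := Nat.one_le_pow _ _ (by norm_num)
    have h2 : 1 ≤ (64 * Λ) ^ b := Nat.one_le_pow _ _ (by omega)
    rw [hr]
    calc 8 ≤ 20 * 1 * 1 * 1 := by norm_num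
      _ ≤ _ := Nat.mul_le_mul (Nat.mul_le_mul (Nat.mul_le_mul_left _ h1) hM) h2
  obtain ⟨N, hN⟩ : ∃ N : ℕ, N = Λ * r := ⟨_, rfl⟩
  have hNr : 64 * r ≤ N := by rw [hN]; exact Nat.mul_le_mul_right _ hΛ
  have hnum : ∀ a, 1 ≤ a → Num M (b + 1) N r a := by
    intro a ha
    refine ⟨ha, hB, hr8, hNr, le_of_eq ?_⟩
    rw [Nat.add_sub_cancel, hN, show 64 * (Λ * r) = 64 * Λ * r by ring, mul_pow (64 * Λ) r b,
      ← mul_assoc, ← hr, pow_succ]
    ring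
  have hr0 : (0 : ℝ) < r := by exact_mod_cast (by omega : 0 < r)
  set κ : ℝ := ((PP N).card : ℝ) with hκ
  have hκ0 : 0 < κ := by
    rw [hκ]
    exact_mod_cast (PP_nonempty N).card_pos
  refine ⟨N, r, R0, c0 / κ / 25, E0 * (5 * (r : ℝ)) ^ (4 / 3 : ℝ), p / (2 * κ), hr8, hNr, hR0,
    by positivity, by positivity, by positivity, ?_⟩
  intro l hl a ha
  have ha1 : 1 ≤ a := hR0.trans ha
  have ha0 : (0 : ℝ) < a := by exact_mod_cast ha1
  have hl0 : (0 : ℝ) < l := by exact_mod_cast hl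
  have hRa : R0 ≤ r * a := by nlinarith
  have hg := hgood (5 * l) (by omega) (r * a) hRa
  have hna : Λ * (r * a) = N * a := by rw [hN, mul_assoc]
  rw [hna] at hg
  set S := blk (0, 0) (513 * (N * a)) with hS
  -- contradiction
  by_contra hcon
  push Not at hcon
  have hsmall : ∀ q ∈ (PP N).filter (fun q => Pat N q.1 q.2),
      PQ (1 / 2) S (fun F => BvX (GoodX N r (c0 / κ / 25) (E0 * (5 * (r : ℝ)) ^ (4 / 3 : ℝ)) a l
        q.1 q.2) N r a q.1 q.2 F) ≤ p / (2 * κ) := by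
    intro q hq
    rw [Finset.mem_filter] at hq
    have h1 := hcon q.1 q.2 hq.2
    refine le_trans (le_of_eq ?_) h1.le
    apply Pr_local
    · have e1 : (N + 10) * a ≤ 513 * (N * a) := by nlinarith
      have e2 : (2 * N + 10) * a ≤ 513 * (N * a) := by nlinarith
      rw [hS]
      unfold V5helper99.OB.TP H12S.blk
      apply RE_subset <;> simp only [zero_sub, zero_add, neg_le_neg_iff, Nat.cast_le] <;> omega
    · intro F _
      exact BvX_local F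
  have hcov : PQ (1 / 2) S (fun F =>
        c0 * ((r * a : ℕ) : ℝ) ^ (4 / 3 : ℝ) ≤ ((VF (fun w F => Ev (512 * (N * a)) M (b + 1)
          (8 * (N * a)) (N * a) (r * a) (Lft (N * a)) w ↑F) (r * a) F).card : ℝ) ∧
        Pc (5 * l) (VF (fun w F => Ev (512 * (N * a)) M (b + 1) (8 * (N * a)) (N * a) (r * a)
          (Lft (N * a)) w ↑F) (r * a) F) ≤
          E0 * (((r * a : ℕ) : ℝ) * ((5 * l : ℕ) : ℝ)) ^ (4 / 3 : ℝ)) ≤
      ∑ q ∈ (PP N).filter (fun q => Pat N q.1 q.2),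
        PQ (1 / 2) S (fun F => BvX (GoodX N r (c0 / κ / 25) (E0 * (5 * (r : ℝ)) ^ (4 / 3 : ℝ)) a l
          q.1 q.2) N r a q.1 q.2 F) := by
    refine le_trans (Pr_mono okh ?_) (Pr_exists_le okh S
      ((PP N).filter (fun q => Pat N q.1 q.2)) (fun q F => BvX (GoodX N r (c0 / κ / 25)
        (E0 * (5 * (r : ℝ)) ^ (4 / 3 : ℝ)) a l q.1 q.2) N r a q.1 q.2 F))
    rintro F _ ⟨h1, h2⟩
    set V := VF (fun w F => Ev (512 * (N * a)) M (b + 1) (8 * (N * a)) (N * a) (r * a)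
          (Lft (N * a)) w ↑F) (r * a) F with hV
    have hVm : ∀ w ∈ V, w ∈ core (r * a) ∧ Ev (512 * (N * a)) M (b + 1) (8 * (N * a)) (N * a)
        (r * a) (Lft (N * a)) w ↑F := by
      intro w hw
      rw [hV] at hw
      unfold VF at hw
      rwa [Finset.mem_filter] at hw
    -- the patterns
    have hex : ∀ w : Vtx, ∃ q : Finset (ℤ × ℤ) × ℤ, w ∈ V →
        (q ∈ PP N ∧ PatOf M (b + 1) N r a q.1 q.2 w ↑F) := by
      intro w
      by_cases hw : w ∈ V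
      · obtain ⟨q, hq⟩ := exists_pat ha1 (hVm w hw).2
        exact ⟨q, fun _ => hq⟩
      · exact ⟨(∅, 0), fun h => absurd h hw⟩
    choose f hf using hex
    obtain ⟨q, hq, hq2⟩ := Finset.exists_le_card_fiber_of_nsmul_le_card_of_maps_to
      (s := V) (t := PP N) (f := f) (b := (V.card : ℝ) / κ) (fun w hw => (hf w hw).1)
      (PP_nonempty N) (by
        rw [nsmul_eq_mul, ← hκ, mul_div_cancel₀ _ hκ0.ne'])
    set V' := V.filter (fun w => f w = q) with hV'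
    have hra1 : (a : ℝ) ^ (4 / 3 : ℝ) ≤ ((r * a : ℕ) : ℝ) ^ (4 / 3 : ℝ) := by
      refine Real.rpow_le_rpow ha0.le ?_ (by norm_num)
      exact_mod_cast Nat.le_mul_of_pos_left a (by omega)
    have hcard : c0 / κ * (a : ℝ) ^ (4 / 3 : ℝ) ≤ (V'.card : ℝ) := by
      refine le_trans ?_ hq2
      rw [div_mul_eq_mul_div]
      refine div_le_div_of_nonneg_right ?_ hκ0.le
      exact (mul_le_mul_of_nonneg_left hra1 hc0.le).trans h1
    have hpos : 0 < c0 / κ * (a : ℝ) ^ (4 / 3 : ℝ) := by positivity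
    have hne : V'.Nonempty := by
      rw [← Finset.card_pos]
      have : (0 : ℝ) < (V'.card : ℝ) := lt_of_lt_of_le hpos hcard
      exact_mod_cast this
    have hen : Pc (5 * l) V' ≤ E0 * (5 * (r : ℝ)) ^ (4 / 3 : ℝ) * ((a : ℝ) * l) ^ (4 / 3 : ℝ) := by
      refine (Pc_mono (Finset.filter_subset _ _)).trans (h2.trans (le_of_eq ?_))
      rw [mul_assoc E0, ← Real.mul_rpow (by positivity) (by positivity)]
      congr 2
      push_cast
      ring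
    have hdet := detX (hnum a ha1) (Z := q.1) (yh := q.2) hne (F := F) (c0 := c0 / κ)
      (E0 := E0 * (5 * (r : ℝ)) ^ (4 / 3 : ℝ)) hl (by
        intro w hw
        rw [hV', Finset.mem_filter] at hw
        have h3 := hVm w hw.1
        have h4 := (hf w hw.1).2
        rw [hw.2] at h4
        exact ⟨h3.1, h3.2, h4⟩) hcard hen
    refine ⟨q, Finset.mem_filter.2 ⟨hq, ?_, ?_⟩, hdet⟩
    · intro z hz
      unfold PP at hq
      rw [Finset.mem_product, Finset.mem_powerset] at hq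
      have h3 := hq.1 hz
      rw [Finset.mem_product, Finset.mem_Icc, Finset.mem_Icc] at h3
      rw [abs_le, abs_le]
      exact h3
    · obtain ⟨w, hw⟩ := hne
      rw [hV', Finset.mem_filter] at hw
      have h3 := hVm w hw.1
      have h4 := (hf w hw.1).2
      rw [hw.2] at h4
      exact (chain (hnum a ha1) (C := ∅) (mem_core.1 h3.1) h4 (by simp)).2.1
  have hsum : ∑ q ∈ (PP N).filter (fun q => Pat N q.1 q.2),
        PQ (1 / 2) S (fun F => BvX (GoodX N r (c0 / κ / 25) (E0 * (5 * (r : ℝ)) ^ (4 / 3 : ℝ)) a l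
          q.1 q.2) N r a q.1 q.2 F) ≤ p / 2 := by
    refine (Finset.sum_le_sum hsmall).trans ?_
    rw [Finset.sum_const, nsmul_eq_mul]
    have h1 : (((PP N).filter (fun q => Pat N q.1 q.2)).card : ℝ) ≤ κ := by
      rw [hκ]
      exact_mod_cast Finset.card_filter_le _ _
    calc (((PP N).filter (fun q => Pat N q.1 q.2)).card : ℝ) * (p / (2 * κ))
        ≤ κ * (p / (2 * κ)) := mul_le_mul_of_nonneg_right h1 (by positivity)
      _ = p / 2 := by field_simp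
  linarith

/-- **BOXX** -/
theorem t_BOXX : S_BOXX :=
  t_BOXXc (Pool.Agent.Y989.FR.ACC.t_ACC Pool.Agent.Y989.FR.a_L3)
    (Pool.Agent.Y989.FR.a_THK Pool.Agent.Y989.FR.a_JR Pool.Agent.Y989.FR.a_U3)
    Pool.Agent.Y989.FR.a_U3

end Pool.Agent.V5helper72.OA
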