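import Pool.Agent.W424.OD.Cnt
import Pool.Agent.V5helper72.OA.Asm
import Pool.Agent.V5helper90.OB.Num
import Pool.Agent.V5helper90.OB.Touch

/-!
# Accessible vertices of all large clusters: from the witnesses to the number of squares (helper72)
-/

set_option autoImplicit false

namespace Pool.Agent.V5helper72.OA

open H974 H12S Finset H984P H984N H342P
open Pool.Agent.W424.OD (accessible Accessible avoidGraph)

/-- The square of side `m` which contains `w`. -/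
def sqr (m : ℕ) (w : ℤ × ℤ) : ℤ × ℤ := (w.1 / (m : ℤ), w.2 / (m : ℤ))

theorem sqr_near {m : ℕ} (hm : 1 ≤ m) {u w : ℤ × ℤ} (h : sqr m u = sqr m w) : sd u w ≤ m := by
  unfold sqr at h
  rw [Prod.mk.injEq] at h
  have hm' : (0 : ℤ) < m := by exact_mod_cast hm
  have h1 := Int.emod_add_mul_ediv u.1 m
  have h2 := Int.emod_add_mul_ediv w.1 m
  have h3 := Int.emod_add_mul_ediv u.2 m
  have h4 := Int.emod_add_mul_ediv w.2 m
  have k1 := Int.emod_nonneg u.1 hm'.ne'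
  have k2 := Int.emod_nonneg w.1 hm'.ne'
  have k3 := Int.emod_nonneg u.2 hm'.ne'
  have k4 := Int.emod_nonneg w.2 hm'.ne'
  have k5 := Int.emod_lt_of_pos u.1 hm'
  have k6 := Int.emod_lt_of_pos w.1 hm'
  have k7 := Int.emod_lt_of_pos u.2 hm'
  have k8 := Int.emod_lt_of_pos w.2 hm'
  rw [h.1] at h1
  rw [h.2] at h3
  rw [Pool.Agent.V5helper99.OB.sd_le_iff, abs_le, abs_le]
  omega

open Classical in
/-- Cauchy-Schwarz -/
theorem card_sqr {m : ℕ} (hm : 1 ≤ m) {V A : Finset (ℤ × ℤ)} (hVA : V ⊆ A) :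
    (V.card : ℝ) ^ 2 ≤ ((A.image (sqr m)).card : ℝ) * Pc m V := by
  have h1 : (V.card : ℝ) = ∑ s ∈ V.image (sqr m), ((V.filter (fun w => sqr m w = s)).card : ℝ) := by
    have := Finset.card_eq_sum_card_image (sqr m) V
    exact_mod_cast this
  have h2 : ∑ s ∈ V.image (sqr m), ((V.filter (fun w => sqr m w = s)).card : ℝ) ^ 2 ≤ Pc m V := by
    have h3 : ∑ u ∈ V, ((V.filter (fun w => sqr m w = sqr m u)).card : ℝ) =
        ∑ s ∈ V.image (sqr m), ((V.filter (fun w => sqr m w = s)).card : ℝ) ^ 2 := by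
      rw [Finset.sum_comp (fun s => ((V.filter (fun w => sqr m w = s)).card : ℝ)) (sqr m)]
      apply Finset.sum_congr rfl
      intro s _
      rw [nsmul_eq_mul, sq]
    rw [← h3]
    unfold Pc
    apply Finset.sum_le_sum
    intro u _
    rw [Finset.card_filter]
    push_cast
    apply Finset.sum_le_sum
    intro w _
    by_cases h4 : sqr m w = sqr m u
    · rw [if_pos h4, if_pos (sqr_near hm h4.symm)]
    · rw [if_neg h4]
      split_ifs <;> norm_num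
  have h3 := sq_sum_le_card_mul_sum_sq (s := V.image (sqr m))
    (f := fun s => ((V.filter (fun w => sqr m w = s)).card : ℝ))
  rw [← h1] at h3
  have h4 : ((V.image (sqr m)).card : ℝ) ≤ ((A.image (sqr m)).card : ℝ) := by
    exact_mod_cast Finset.card_le_card (Finset.image_subset_image hVA)
  have h5 : 0 ≤ ∑ s ∈ V.image (sqr m), ((V.filter (fun w => sqr m w = s)).card : ℝ) ^ 2 :=
    Finset.sum_nonneg fun _ _ => sq_nonneg _
  calc (V.card : ℝ) ^ 2 ≤ ((V.image (sqr m)).card : ℝ) *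
        ∑ s ∈ V.image (sqr m), ((V.filter (fun w => sqr m w = s)).card : ℝ) ^ 2 := h3
    _ ≤ _ := mul_le_mul h4 h2 h5 (Nat.cast_nonneg _)

theorem avoid_reachable {D : Set (ℤ × ℤ)} {p q : ℤ × ℤ} (h : Reach (AvD D) p q) :
    (avoidGraph D).Reachable p q := by
  rw [SimpleGraph.reachable_iff_reflTransGen]
  refine Relation.ReflTransGen.mono ?_ _ _ h
  intro a b hab
  obtain ⟨e, ⟨h1, h2⟩, h3⟩ := hab
  unfold avoidGraph
  rw [SimpleGraph.fromRel_adj]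
  rcases h3 with ⟨h4, h5⟩ | ⟨h4, h5⟩
  · refine ⟨?_, Or.inl ⟨⟨e, ?_, ?_⟩, ?_, ?_⟩⟩
    · rw [← h4, ← h5, ← Plain.fst_eq, ← Plain.snd_eq]
      exact Plain.fst_ne_snd e
    · rw [Plain.fst_eq]; exact h4
    · rw [Plain.snd_eq]; exact h5
    · rw [← h4]; exact h1
    · rw [← h5]; exact h2
  · refine ⟨?_, Or.inr ⟨⟨e, ?_, ?_⟩, ?_, ?_⟩⟩
    · rw [← h4, ← h5, ← Plain.fst_eq, ← Plain.snd_eq]
      exact (Plain.fst_ne_snd e).symm
    · rw [Plain.fst_eq]; exact h4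
    · rw [Plain.snd_eq]; exact h5
    · rw [← h4]; exact h1
    · rw [← h5]; exact h2

theorem acc_of_AccD {n : ℕ} (hn : 1 ≤ n) {F : Finset Plain.Edge} (hF : F ⊆ Plain.edges n)
    {v : ℤ × ℤ} (hv : v ∈ Plain.box n) {w : ℤ × ℤ} (h : AccD n (Plain.cluster F v) w) :
    w ∈ accessible n F v := by
  classical
  obtain ⟨hw, p, q, hp, ⟨e, -, hpw⟩, hq, hr⟩ := h
  have hwR : Reach (↑F : Set Edg) v w := (Plain.mem_cluster _ _ _).1 hw
  rw [Plain.edges_eq] at hF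
  have hFs : (↑F : Set Edg) ⊆ ↑(RE 0 n 0 n) := by exact_mod_cast hF
  have hv' : inR 0 n 0 n v := Pool.Agent.V5helper90.OB.mem_bx.1 hv
  have hwb : inR 0 n 0 n w := Pool.Agent.V5helper99.OB.reach_RE hFs hv' hwR
  have hn' : (1 : ℤ) ≤ n := by exact_mod_cast hn
  unfold Pool.Agent.W424.OD.accessible
  rw [Finset.mem_filter]
  refine ⟨Pool.Agent.V5helper90.OB.mem_bx.2 hwb, hw, e, p, q, ?_, hp, ?_, avoid_reachable hr⟩
  · rcases hpw with ⟨h1, h2⟩ | ⟨h1, h2⟩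
    · right
      rw [Plain.fst_eq, Plain.snd_eq]
      exact ⟨h1, h2⟩
    · left
      rw [Plain.fst_eq, Plain.snd_eq]
      exact ⟨h1, h2⟩
  · intro hqb
    have hqb' : inR 0 n 0 n q := Pool.Agent.V5helper90.OB.mem_bx.1 hqb
    have : sd q w ≤ n := by
      rw [Pool.Agent.V5helper99.OB.sd_le_iff, abs_le, abs_le]
      unfold inR at hwb hqb'
      omega
    omega

open Classical in
/-- many witnesses give many squares -/
theorem low_of_wit {n m : ℕ} (hn : 1 ≤ n) (hm : 1 ≤ m) {c E : ℝ} (hc : 0 < c) (hE : 0 < E)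
    {F : Finset Plain.Edge} (hF : F ⊆ Plain.edges n) {v : ℤ × ℤ} (hv : v ∈ Plain.box n)
    (h : WitD n m c E (Plain.cluster F v)) :
    c ^ 2 / E * ((n : ℝ) / m) ^ (4 / 3 : ℝ) ≤ (((accessible n F v).image (sqr m)).card : ℝ) := by
  obtain ⟨V, hV1, hV2, hV3⟩ := h
  have hn0 : (0:ℝ) < n := by exact_mod_cast hn
  have hm0 : (0:ℝ) < m := by exact_mod_cast hm
  have h1 := card_sqr hm (V := V) (A := accessible n F v) (fun w hw => acc_of_AccD hn hF hv (hV1 w hw))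
  set X : ℝ := (((accessible n F v).image (sqr m)).card : ℝ) with hX
  have hX0 : 0 ≤ X := Nat.cast_nonneg _
  have hnp : 0 < (n : ℝ) ^ (4 / 3 : ℝ) := Real.rpow_pos_of_pos hn0 _
  have hmp : 0 < (m : ℝ) ^ (4 / 3 : ℝ) := Real.rpow_pos_of_pos hm0 _
  have h2 : (c * (n : ℝ) ^ (4 / 3 : ℝ)) ^ 2 ≤ X * (E * ((n : ℝ) ^ (4 / 3 : ℝ) * (m : ℝ) ^ (4 / 3 : ℝ))) := by
    rw [← Real.mul_rpow hn0.le hm0.le]
    calc (c * (n : ℝ) ^ (4 / 3 : ℝ)) ^ 2 ≤ (V.card : ℝ) ^ 2 :=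
          pow_le_pow_left₀ (by positivity) hV2 2
      _ ≤ X * Pc m V := h1
      _ ≤ _ := mul_le_mul_of_nonneg_left hV3 hX0
  rw [Real.div_rpow hn0.le hm0.le, div_mul_div_comm, div_le_iff₀ (by positivity)]
  have h3 : c ^ 2 * (n : ℝ) ^ (4 / 3 : ℝ) * (n : ℝ) ^ (4 / 3 : ℝ) ≤
      X * (E * (m : ℝ) ^ (4 / 3 : ℝ)) * (n : ℝ) ^ (4 / 3 : ℝ) := by
    calc _ = (c * (n : ℝ) ^ (4 / 3 : ℝ)) ^ 2 := by ring
      _ ≤ _ := h2
      _ = _ := by ring
  exact le_of_mul_le_mul_right h3 hnp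

/-- **DWX** -/
theorem dwx : S_DWX :=
  t_ASMX Pool.Agent.V5helper90.OB.t_TOUCH Pool.Agent.V5helper90.OB.t_NUM (t_COREX t_BOXX)

open Classical in
/-- the lower bound for all large clusters -/
theorem lower {δ η : ℝ} (hδ : 0 < δ) (hη : 0 < η) : ∃ (c : ℝ) (n0 : ℕ), 0 < c ∧ 1 ≤ n0 ∧
    ∀ n : ℕ, n0 ≤ n → ∀ m : ℕ, 1 ≤ m →
      Plain.prob n (fun F => ∃ v ∈ Plain.box n,
        (∃ a ∈ Plain.cluster F v, ∃ b ∈ Plain.cluster F v, η * n ≤ ((sd a b : ℤ) : ℝ)) ∧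
        ¬ c * ((n : ℝ) / m) ^ (4 / 3 : ℝ) ≤ (((accessible n F v).image (sqr m)).card : ℝ)) ≤ δ := by
  obtain ⟨c, E, n0, hc, hE, h⟩ := dwx (min δ η) (lt_min hδ hη)
  refine ⟨c ^ 2 / E, max n0 1, by positivity, le_max_right _ _, fun n hn m hm => ?_⟩
  have h1 := h n (le_trans (le_max_left _ _) hn) m hm
  have hn1 : 1 ≤ n := le_trans (le_max_right _ _) hn
  refine le_trans ?_ (h1.trans (min_le_left _ _))
  rw [Plain.prob_eq, Plain.prob_eq]
  refine Pr_mono okh ?_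
  rintro F hF ⟨v, hv, ⟨a, ha, b, hb, hab⟩, hno⟩
  refine ⟨v, hv, ⟨a, ha, b, hb, ?_⟩, fun hW => hno ?_⟩
  · refine le_trans ?_ hab
    exact mul_le_mul_of_nonneg_right (min_le_right _ _) (Nat.cast_nonneg _)
  · exact low_of_wit hn1 hm hc hE (by rw [Plain.edges_eq]; exact hF) hv hW

end Pool.Agent.V5helper72.OA
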