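import Pool.Agent.V5helper72.OA.Low

/-!
# Accessible vertices of all large clusters: upper bound for the number of squares (helper72)

As `Pool.Agent.W424.OD.cnt` (helper424), for squares of side `m`.
-/

set_option autoImplicit false

namespace Pool.Agent.V5helper72.OA

open H974 H12S Finset H389NS H984P H984N H342P
open Pool.Agent.W424.OD (accessible Accessible avoidGraph avoid_reach A3v A3v_of BX AE)

/-- The event that the square `s` of side `m` may contain accessible vertices. -/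
def SqE (n m : ℕ) (H : ℤ) (s : ℤ × ℤ) (F : Set Edg) : Prop :=
  min H (bdist (n / m) s) ≤ 0 ∨
    A3v ((m : ℤ) * s.1, (m : ℤ) * s.2) m (m * (min H (bdist (n / m) s)).toNat) F

/-- number of squares with three arms -/
noncomputable def NB (n m : ℕ) (H : ℤ) (F : Set Edg) : ℝ :=
  ∑ s ∈ Finset.Icc (0:ℤ) (n / m : ℕ) ×ˢ Finset.Icc (0:ℤ) (n / m : ℕ), ind (SqE n m H s F)

theorem NB_nonneg (n m : ℕ) (H : ℤ) (F : Set Edg) : 0 ≤ NB n m H F :=
  Finset.sum_nonneg (fun _ _ => ind_nonneg _)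

theorem bdist_sqr {n m : ℕ} (s : ℤ × ℤ) :
    (m : ℤ) * bdist (n / m) s ≤ bdist n ((m : ℤ) * s.1, (m : ℤ) * s.2) := by
  unfold bdist
  have h1 : m * (n / m) ≤ n := Nat.mul_div_le n m
  have h2 : (m : ℤ) * ((n / m : ℕ) : ℤ) ≤ n := by exact_mod_cast h1
  have hm : (0 : ℤ) ≤ m := Int.natCast_nonneg m
  set T : ℤ := ((n / m : ℕ) : ℤ) with hT
  have k1 : (m : ℤ) * min (min s.1 (T - s.1)) (min s.2 (T - s.2)) ≤ m * s.1 :=
    mul_le_mul_of_nonneg_left ((min_le_left _ _).trans (min_le_left _ _)) hm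
  have k2 : (m : ℤ) * min (min s.1 (T - s.1)) (min s.2 (T - s.2)) ≤ m * (T - s.1) :=
    mul_le_mul_of_nonneg_left ((min_le_left _ _).trans (min_le_right _ _)) hm
  have k3 : (m : ℤ) * min (min s.1 (T - s.1)) (min s.2 (T - s.2)) ≤ m * s.2 :=
    mul_le_mul_of_nonneg_left ((min_le_right _ _).trans (min_le_left _ _)) hm
  have k4 : (m : ℤ) * min (min s.1 (T - s.1)) (min s.2 (T - s.2)) ≤ m * (T - s.2) :=
    mul_le_mul_of_nonneg_left ((min_le_right _ _).trans (min_le_right _ _)) hm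
  rw [mul_sub] at k2 k4
  simp only [le_min_iff]
  refine ⟨⟨k1, ?_⟩, k3, ?_⟩ <;> linarith

open Classical in
/-- the number of squares with accessible vertices of large clusters -/
theorem squares_le {n m : ℕ} (hn : 1 ≤ n) (hm : 1 ≤ m) {H : ℤ} {η : ℝ}
    (hH : 2 * ((m : ℝ) * H) < η * n) {F : Finset Plain.Edge} (hF : F ⊆ Plain.edges n)
    {v : ℤ × ℤ} (hv : v ∈ Plain.box n)
    (hd : ∃ a ∈ Plain.cluster F v, ∃ b ∈ Plain.cluster F v, η * n ≤ ((sd a b : ℤ) : ℝ)) :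
    (((accessible n F v).image (sqr m)).card : ℝ) ≤ NB n m H (↑F : Set Edg) := by
  obtain ⟨a, ha, b, hb, hab⟩ := hd
  have hm' : (0 : ℤ) < m := by exact_mod_cast hm
  have hsub : (accessible n F v).image (sqr m) ⊆
      (Finset.Icc (0:ℤ) (n / m : ℕ) ×ˢ Finset.Icc (0:ℤ) (n / m : ℕ)).filter
        (fun s => SqE n m H s (↑F : Set Edg)) := by
    intro s hs
    obtain ⟨w, hw, rfl⟩ := Finset.mem_image.1 hs
    unfold Pool.Agent.W424.OD.accessible at hw
    rw [Finset.mem_filter] at hw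
    obtain ⟨hwb, hwc, e, p, q, he, hp, hq, hpq⟩ := hw
    unfold Plain.box at hwb
    rw [Finset.mem_product, Finset.mem_Icc, Finset.mem_Icc] at hwb
    have r1 := Int.emod_add_mul_ediv w.1 m
    have r2 := Int.emod_add_mul_ediv w.2 m
    have r3 := Int.emod_nonneg w.1 hm'.ne'
    have r4 := Int.emod_nonneg w.2 hm'.ne'
    have r5 := Int.emod_lt_of_pos w.1 hm'
    have r6 := Int.emod_lt_of_pos w.2 hm'
    rw [Finset.mem_filter, Finset.mem_product, Finset.mem_Icc, Finset.mem_Icc]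
    have i1 : (sqr m w).1 = w.1 / m := rfl
    have i2 : (sqr m w).2 = w.2 / m := rfl
    refine ⟨⟨⟨?_, ?_⟩, ?_, ?_⟩, ?_⟩
    · rw [i1]; exact Int.ediv_nonneg hwb.1.1 hm'.le
    · rw [i1]
      push_cast
      exact Int.ediv_le_ediv hm' hwb.1.2
    · rw [i2]; exact Int.ediv_nonneg hwb.2.1 hm'.le
    · rw [i2]
      push_cast
      exact Int.ediv_le_ediv hm' hwb.2.2
    · by_cases hk0 : min H (bdist (n / m) (sqr m w)) ≤ 0
      · exact Or.inl hk0
      right
      set k : ℤ := min H (bdist (n / m) (sqr m w)) with hk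
      have hk1 : (1 : ℤ) ≤ k := by omega
      have hkn : ((k.toNat : ℕ) : ℤ) = k := Int.toNat_of_nonneg (by omega)
      have hkH : k ≤ H := min_le_left _ _
      have hkb : k ≤ bdist (n / m) (sqr m w) := min_le_right _ _
      set c : ℤ × ℤ := ((m : ℤ) * (sqr m w).1, (m : ℤ) * (sqr m w).2) with hc
      have c1 : c.1 = (m : ℤ) * (w.1 / m) := rfl
      have c2 : c.2 = (m : ℤ) * (w.2 / m) := rfl
      have hR : (((m * k.toNat : ℕ)) : ℤ) = m * k := by push_cast; rw [hkn]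
      have hmk : (m : ℤ) ≤ m * k := by nlinarith
      -- a far vertex of the cluster
      have hfar : ∃ x', Reach (↑F : Set Edg) v x' ∧ ¬ BX c (m * k.toNat) x' := by
        by_contra hcon
        push Not at hcon
        have h1 := hcon a ((Plain.mem_cluster _ _ _).1 ha)
        have h2 := hcon b ((Plain.mem_cluster _ _ _).1 hb)
        unfold BX inR at h1 h2
        rw [hR] at h1 h2
        have h3 : sd a b ≤ 2 * (m * k) := by
          rw [Pool.Agent.V5helper99.OB.sd_le_iff, abs_le, abs_le]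
          omega
        have h4 : (m : ℤ) * k ≤ m * H := mul_le_mul_of_nonneg_left hkH hm'.le
        have h5 : ((sd a b : ℤ) : ℝ) ≤ 2 * ((m : ℝ) * H) := by
          have : sd a b ≤ 2 * (m * H) := by omega
          exact_mod_cast this
        linarith
      obtain ⟨x', hx', hxf⟩ := hfar
      have hpw : BX c m p := by
        obtain ⟨x, y, t⟩ := e
        obtain ⟨w1, w2⟩ := w
        obtain ⟨p1, p2⟩ := p
        unfold BX inR
        rw [c1, c2]
        unfold Plain.fst Plain.snd at he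
        simp only at r1 r2 r3 r4 r5 r6 ⊢
        cases t
        · simp only [Bool.false_eq_true, if_false, Prod.mk.injEq] at he
          omega
        · simp only [if_true, Prod.mk.injEq] at he
          omega
      refine A3v_of (v := v) (x := w) (x' := x') (w := p) (w' := q) (Nat.le_mul_of_pos_right m (by omega)) ?_
        ((Plain.mem_cluster _ _ _).1 hwc) hxf hx' hpw ?_ (avoid_reach hpq)
      · unfold BX inR
        rw [c1, c2]
        omega
      · intro hqb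
        apply hq
        unfold Plain.box
        rw [Finset.mem_product, Finset.mem_Icc, Finset.mem_Icc]
        have h1 := bdist_sqr (n := n) (m := m) (sqr m w)
        rw [← hc] at h1
        have h2 : (m : ℤ) * k ≤ m * bdist (n / m) (sqr m w) := mul_le_mul_of_nonneg_left hkb hm'.le
        have h3 : (m : ℤ) * k ≤ bdist n c := h2.trans h1
        unfold BX inR at hqb
        rw [hR] at hqb
        unfold bdist at h3
        omega
  have h1 := Finset.card_le_card hsub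
  unfold NB
  calc (((accessible n F v).image (sqr m)).card : ℝ)
      ≤ (((Finset.Icc (0:ℤ) (n / m : ℕ) ×ˢ Finset.Icc (0:ℤ) (n / m : ℕ)).filter
        (fun s => SqE n m H s (↑F : Set Edg))).card : ℝ) := by exact_mod_cast h1
    _ = _ := by
        rw [Finset.card_filter]
        push_cast
        apply Finset.sum_congr rfl
        intro s _
        by_cases h2 : SqE n m H s (↑F : Set Edg)
        · rw [if_pos h2, ind_of h2]
        · rw [if_neg h2, ind_not_of h2]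

theorem ex_NB_le {C : ℝ} (hC : 0 ≤ C) (hU : ∀ (c : ℤ × ℤ) (d k : ℕ), 1 ≤ d → d ≤ k →
    ∀ S : Finset Edg, blk c k ⊆ S →
      PQ (1/2) S (fun F => A3v c d k ↑F) ≤ C * ((d:ℝ) / k) ^ (2/3 : ℝ)) {n m : ℕ} (hm : 1 ≤ m)
    (H : ℤ) :
    Ex (fun _ => (1/2:ℝ)) (RE 0 n 0 n) (fun F => NB n m H (↑F)) ≤
      (((n / m : ℕ) : ℝ) + 1) ^ 2 * ph C (2/3) H + 4 * (((n / m : ℕ) : ℝ) + 1) *
        ∑ x ∈ Finset.Icc (0:ℤ) (n / m : ℕ), ph C (2/3) x := by
  have hok : Ok (fun _ : Edg => (1/2:ℝ)) := fun _ => ⟨by norm_num, by norm_num⟩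
  obtain ⟨T, hT⟩ : ∃ T : ℕ, T = n / m := ⟨_, rfl⟩
  have hm0 : (0:ℝ) < m := by exact_mod_cast hm
  rw [← hT]
  have h1 : Ex (fun _ => (1/2:ℝ)) (RE 0 n 0 n) (fun F => NB n m H (↑F)) ≤
      ∑ s ∈ Finset.Icc (0:ℤ) T ×ˢ Finset.Icc (0:ℤ) T, (ph C (2/3) H + (ph C (2/3) s.1 +
        ph C (2/3) (T - s.1) + (ph C (2/3) s.2 + ph C (2/3) (T - s.2)))) := by
    unfold NB
    rw [Ex_sum, ← hT]
    apply Finset.sum_le_sum
    intro s _
    refine le_trans ?_ (ph_min (s := 2/3) hC T H s)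
    unfold SqE
    rw [← hT]
    set k : ℤ := min H (bdist T s) with hk
    unfold ph
    split_ifs with h
    · exact Pr_le_one hok _ (fun F => k ≤ 0 ∨ A3v ((m : ℤ) * s.1, (m : ℤ) * s.2) m
        (m * k.toNat) (↑F : Set Edg))
    · have hkn : ((k.toNat : ℕ) : ℤ) = k := Int.toNat_of_nonneg (by omega)
      have hk1 : 1 ≤ k.toNat := by omega
      have h2 := hU ((m : ℤ) * s.1, (m : ℤ) * s.2) m (m * k.toNat) hm
        (Nat.le_mul_of_pos_right m hk1) (RE 0 n 0 n) (by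
          have h3 : (((m * k.toNat : ℕ)) : ℤ) ≤ bdist n ((m : ℤ) * s.1, (m : ℤ) * s.2) := by
            refine le_trans ?_ (bdist_sqr (n := n) (m := m) s)
            push_cast
            rw [hkn, ← hT]
            exact mul_le_mul_of_nonneg_left (min_le_right _ _) (Int.natCast_nonneg m)
          exact box_sub h3)
      have h3 : (((k.toNat : ℕ) : ℝ)) = (k : ℝ) := by exact_mod_cast hkn
      have hk0 : (0:ℝ) < (k:ℝ) := by exact_mod_cast (by omega : 0 < k)
      have h4 : ((m:ℝ) / ((m * k.toNat : ℕ) : ℝ)) ^ (2/3 : ℝ) = (k:ℝ) ^ (-(2/3) : ℝ) := by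
        push_cast
        rw [h3, div_mul_eq_div_div, div_self hm0.ne', one_div, Real.inv_rpow hk0.le,
          Real.rpow_neg hk0.le]
      rw [h4] at h2
      refine le_trans ?_ h2
      refine Pr_mono hok ?_
      intro F _ hF
      rcases hF with hF | hF
      · exact absurd hF h
      · exact hF
  refine h1.trans (le_of_eq ?_)
  rw [Finset.sum_product]
  have hc : (Finset.Icc (0:ℤ) T).card = T + 1 := by
    rw [Int.card_Icc]; omega
  simp_rw [Finset.sum_add_distrib, Finset.sum_const, hc, sum_refl T (ph C (2/3))]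
  simp_rw [nsmul_eq_mul]
  have hr : ∑ x ∈ Finset.Icc (0:ℤ) T, ((T + 1 : ℕ) : ℝ) * ph C (2/3) (T - x) =
      ((T + 1 : ℕ) : ℝ) * ∑ x ∈ Finset.Icc (0:ℤ) T, ph C (2/3) x := by
    rw [← Finset.mul_sum, sum_refl T (ph C (2/3))]
  have hr2 : ∑ x ∈ Finset.Icc (0:ℤ) T, ((T + 1 : ℕ) : ℝ) * ph C (2/3) x =
      ((T + 1 : ℕ) : ℝ) * ∑ x ∈ Finset.Icc (0:ℤ) T, ph C (2/3) x := by
    rw [← Finset.mul_sum]
  simp only [hr, hr2]
  push_cast
  ring

open Classical in
/-- the upper bound for all large clusters -/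
theorem upper {δ η : ℝ} (hδ : 0 < δ) (hη : 0 < η) : ∃ K : ℝ, 0 < K ∧
    ∀ n : ℕ, 1 ≤ n → ∀ m : ℕ, 1 ≤ m → m ≤ n →
      Plain.prob n (fun F => ∃ v ∈ Plain.box n,
        (∃ a ∈ Plain.cluster F v, ∃ b ∈ Plain.cluster F v, η * n ≤ ((sd a b : ℤ) : ℝ)) ∧
        ¬ (((accessible n F v).image (sqr m)).card : ℝ) ≤ K * ((n : ℝ) / m) ^ (4 / 3 : ℝ)) ≤ δ := by
  obtain ⟨C, hC, hU⟩ := Pool.Agent.W424.KI.u3
  set A1 : ℝ := (C + 1) * (6 / η) ^ (2/3 : ℝ) with hA1
  set A : ℝ := 4 * A1 + 8 * (1 + 3 * C) with hA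
  have hA10 : 0 < A1 := by positivity
  have hA0 : 0 < A := by positivity
  refine ⟨A / δ, by positivity, fun n hn m hm hmn => ?_⟩
  have hn0 : (0:ℝ) < n := by exact_mod_cast hn
  have hm0 : (0:ℝ) < m := by exact_mod_cast hm
  obtain ⟨X, hX⟩ : ∃ X : ℝ, X = (n:ℝ) / m := ⟨_, rfl⟩
  have hX1 : 1 ≤ X := by
    rw [hX, le_div_iff₀ hm0, one_mul]
    exact_mod_cast hmn
  have hX0 : 0 < X := by linarith
  obtain ⟨T, hT⟩ : ∃ T : ℕ, T = n / m := ⟨_, rfl⟩
  have hTX : (T : ℝ) ≤ X := by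
    rw [hT, hX]
    exact Nat.cast_div_le
  obtain ⟨H, hH⟩ : ∃ H : ℤ, H = ⌊η * X / 3⌋ := ⟨_, rfl⟩
  have hH1 : (H : ℝ) ≤ η * X / 3 := by rw [hH]; exact Int.floor_le _
  have hH2 : η * X / 3 < H + 1 := by rw [hH]; exact Int.lt_floor_add_one _
  have hHn : 2 * ((m : ℝ) * H) < η * n := by
    have h1 : (m : ℝ) * H ≤ m * (η * X / 3) := mul_le_mul_of_nonneg_left hH1 hm0.le
    have h2 : (m : ℝ) * (η * X / 3) = η * n / 3 := by
      rw [hX]; field_simp
    have h3 : 0 < η * n := by positivity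
    linarith
  have hph : ph C (2/3) H ≤ A1 * X ^ (-(2/3) : ℝ) := by
    have e1 : A1 * X ^ (-(2/3) : ℝ) = (C + 1) * (η * X / 6) ^ (-(2/3) : ℝ) := by
      rw [hA1, mul_assoc]
      congr 1
      rw [Real.rpow_neg hX0.le, Real.rpow_neg (by positivity), Real.div_rpow (by norm_num) hη.le,
        Real.div_rpow (by positivity) (by norm_num), Real.mul_rpow hη.le hX0.le]
      field_simp
    rw [e1]
    unfold ph
    split_ifs with h
    · have h1 : (H : ℝ) ≤ 0 := by exact_mod_cast h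
      have h2 : η * X / 6 ≤ 1 := by linarith
      have h3 : 1 ≤ (η * X / 6) ^ (-(2/3) : ℝ) :=
        Real.one_le_rpow_of_pos_of_le_one_of_nonpos (by positivity) h2 (by norm_num)
      nlinarith
    · have h1 : (1 : ℝ) ≤ H := by exact_mod_cast (by omega : 1 ≤ H)
      have h2 : η * X / 6 ≤ H := by linarith
      have h3 : (H : ℝ) ^ (-(2/3) : ℝ) ≤ (η * X / 6) ^ (-(2/3) : ℝ) :=
        Real.rpow_le_rpow_of_nonpos (by positivity) h2 (by norm_num)
      have h4 : 0 ≤ (η * X / 6) ^ (-(2/3) : ℝ) := by positivity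
      nlinarith
  have h4 := ex_NB_le hC.le hU (n := n) (m := m) hm H
  rw [← hT] at h4
  have h5 := sum_ph_le (s := 2/3) hC.le (by norm_num) (by norm_num) T
  have hEX : Ex (fun _ => (1/2:ℝ)) (RE 0 n 0 n) (fun F => NB n m H (↑F)) ≤
      A * X ^ (4/3 : ℝ) := by
    refine h4.trans ?_
    have e2 : X ^ 2 * X ^ (-(2/3) : ℝ) = X ^ (4/3 : ℝ) := by
      rw [← Real.rpow_natCast, ← Real.rpow_add hX0]
      norm_num
    have e3 : X * X ^ (1/3 : ℝ) = X ^ (4/3 : ℝ) := by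
      rw [show (4/3 : ℝ) = 1 + 1/3 by norm_num, Real.rpow_add hX0, Real.rpow_one]
    have h6 : ((T:ℝ) + 1) ^ 2 * ph C (2/3) H ≤ (4 * X ^ 2) * (A1 * X ^ (-(2/3) : ℝ)) := by
      apply mul_le_mul _ hph (ph_nonneg hC.le _) (by positivity)
      have : (0:ℝ) ≤ T := Nat.cast_nonneg T
      nlinarith
    have h7 : (1:ℝ) ≤ X ^ (1/3 : ℝ) := Real.one_le_rpow hX1 (by norm_num)
    have h8 : (T:ℝ) ^ (1/3 : ℝ) ≤ X ^ (1/3 : ℝ) :=
      Real.rpow_le_rpow (Nat.cast_nonneg T) hTX (by norm_num)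
    have h9 : ∑ x ∈ Finset.Icc (0:ℤ) T, ph C (2/3) x ≤ (1 + 3 * C) * X ^ (1/3 : ℝ) := by
      refine h5.trans ?_
      have e4 : (1 - 2/3 : ℝ) = 1/3 := by norm_num
      rw [e4]
      have e5 : C * ((T:ℝ) ^ (1/3 : ℝ) / (1/3)) = 3 * C * (T:ℝ) ^ (1/3 : ℝ) := by ring
      rw [e5, add_mul]
      have : 3 * C * (T:ℝ) ^ (1/3 : ℝ) ≤ 3 * C * X ^ (1/3 : ℝ) :=
        mul_le_mul_of_nonneg_left h8 (by positivity)
      linarith
    have h10 : 4 * ((T:ℝ) + 1) * ∑ x ∈ Finset.Icc (0:ℤ) T, ph C (2/3) x ≤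
        (8 * X) * ((1 + 3 * C) * X ^ (1/3 : ℝ)) := by
      apply mul_le_mul (by linarith) h9 (Finset.sum_nonneg (fun x _ => ph_nonneg hC.le x))
        (by positivity)
    calc _ ≤ (4 * X ^ 2) * (A1 * X ^ (-(2/3) : ℝ)) + (8 * X) * ((1 + 3 * C) * X ^ (1/3 : ℝ)) :=
          add_le_add h6 h10
      _ = 4 * A1 * (X ^ 2 * X ^ (-(2/3) : ℝ)) + 8 * (1 + 3 * C) * (X * X ^ (1/3 : ℝ)) := by ring
      _ = _ := by rw [e2, e3, hA]; ring
  have hXp : 0 < X ^ (4/3 : ℝ) := Real.rpow_pos_of_pos hX0 _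
  have ht : 0 < A / δ * X ^ (4/3 : ℝ) := by positivity
  have h6 := markov (S := RE 0 n 0 n) (X := fun F => NB n m H (↑F))
    (fun F => NB_nonneg n m H (↑F)) ht
  refine le_trans (Plain.prob_le_of_pr (B := fun F => A / δ * X ^ (4/3 : ℝ) ≤ NB n m H (↑F)) ?_)
    (h6.trans ?_)
  · rintro F hF ⟨v, hv, hd, hno⟩
    rw [← hX] at hno
    have h7 := squares_le hn hm hHn hF hv hd
    exact (lt_of_not_ge hno).le.trans h7
  · rw [div_le_iff₀ ht]
    refine hEX.trans (le_of_eq ?_)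
    field_simp

end Pool.Agent.V5helper72.OA
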