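import Pool.Agent.V5helper99.OB.Core
import Pool.Agent.V5helper72.OA.Box

/-!
# Accessible vertices of all large clusters: one window (helper72)

Adapted from `Window2.lean`, `Witness.lean` of `Pool/Agent/V5helper99/OB` (helper99), for a general
property of the cluster of the box.
-/

set_option autoImplicit false
set_option maxHeartbeats 4000000

namespace Pool.Agent.V5helper72.OA

open H974 H12S Finset H984P H984N Pool.Agent.V5helper99.OB
open Pool.Agent.V5helper72.OB (AvE)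

/-- The good event of the window. -/
def GdX (GX : Finset Vtx → Prop) (S k : Finset Edg) (P : Vtx → Prop) (W0 L : Set Vtx)
    (Hk : Finset Edg) (N r a Q : ℕ) (Z : Finset (ℤ × ℤ)) (yh : ℤ) (F : Finset Edg) : Prop :=
  ∃ C : Finset Vtx, GX C ∧ IsT N a ↑F C ∧
    A2 S k P W0 L Hk N r a Z yh C F ∧ Trp S k P W0 Hk N r a Q Z yh C F

section
variable {S k : Finset Edg} {A y0 X top : ℤ} {P : Vtx → Prop} {L W0 : Set Vtx}
  {N a Q : ℕ} {Hk : Finset Edg} {r : ℕ} {Z : Finset (ℤ × ℤ)} {yh : ℤ}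

theorem dis_windowX (h : WD S k A y0 X top P L W0 N a Q Hk) (hr1 : 8 ≤ r) (hr : 64 * r ≤ N)
    {C C' : Finset Vtx} {F : Finset Edg} (hF : F ⊆ UU S k W0)
    (hne : C ≠ C') (hg' : ∃ w ∈ C', sd w (0, 0) ≤ (r * a : ℕ))
    (h1 : IsT N a ↑F C) (h1' : IsT N a ↑F C') (h2' : A2 S k P W0 L Hk N r a Z yh C' F)
    (h3 : Trp S k P W0 Hk N r a Q Z yh C F) : False := by
  have ha := h.a64
  obtain ⟨w, hw, hwr⟩ := hg'
  have hbox : ∀ y ∈ C', |y.1| ≤ (N * a : ℕ) ∧ |y.2| ≤ (2 * N * a : ℕ) := fun y hy =>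
    IsT_box h1' hw (core_box hr hwr) hy
  obtain ⟨c, hc, hc8⟩ := A2_far (r := r) (Z := Z) (yh := yh) h hbox h2'
  have hwQ : sd w (0, 0) ≤ (Q * a : ℕ) := by
    have hQ := h.hQ
    have : r * a ≤ Q * a := Nat.mul_le_mul_right _ (by omega)
    omega
  set Tp := UU S k W0 \ (tE N a C ∪ D0 S k P W0 Hk N r a Z yh C) with hTp
  have key : ∀ x, Reach ((↑F : Set Edg) ∩ ↑(TE N a)) w x →
      Reach ((↑F : Set Edg) ∩ ↑Tp) w x ∨
      ∃ y, Reach ((↑F : Set Edg) ∩ ↑Tp) w y ∧ (8 * r * a : ℕ) < sd y (0, 0) := by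
    intro x hx
    induction hx with
    | refl => exact Or.inl (Reach.refl _ _)
    | @tail x x' hx hs ih =>
      rcases ih with ih | ih
      · by_cases hx8 : (8 * r * a : ℕ) < sd x (0, 0)
        · exact Or.inr ⟨x, ih, hx8⟩
        · left
          obtain ⟨e, he, hee⟩ := hs
          have hxC : x ∈ C' := IsT_closed h1' hw hx
          have hx'C : x' ∈ C' := IsT_closed h1' hw (hx.tail ⟨e, he, hee⟩)
          have hxnC : x ∉ C := fun h5 => IsT_disj h1 h1' hne h5 hxC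
          have hx'nC : x' ∉ C := fun h5 => IsT_disj h1 h1' hne h5 hx'C
          have hWS : x ∈ WS N r a Z yh := Or.inr (Or.inr (by omega))
          refine ih.trans (Adj.reach ⟨e, ⟨he.1, ?_⟩, hee⟩)
          rw [mem_coe, hTp, Finset.mem_sdiff, Finset.mem_union, not_or]
          refine ⟨hF (by exact_mod_cast he.1), fun h5 => ?_, fun h5 => ?_⟩
          · have h6 := (mem_tE.1 h5).2
            rcases hee with ⟨h7, h8⟩ | ⟨h7, h8⟩
            · rw [h7, h8] at h6
              rcases h6 with h6 | h6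
              · exact hxnC h6
              · exact hx'nC h6
            · rw [h7, h8] at h6
              rcases h6 with h6 | h6
              · exact hx'nC h6
              · exact hxnC h6
          · unfold D0 at h5
            rw [Finset.mem_union] at h5
            rcases h5 with h5 | h5
            · have h6 := mem_ES.1 h5
              rcases hee with ⟨h7, h8⟩ | ⟨h7, h8⟩
              · rw [h7] at h6; exact h6.2.2.1 hWS
              · rw [h8] at h6; exact h6.2.2.2 hWS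
            · have h6 := mem_HK.1 h5
              have hxu : x = src e ∨ x = tgt e := by
                rcases hee with ⟨h7, _⟩ | ⟨_, h7⟩
                · exact Or.inl h7.symm
                · exact Or.inr h7.symm
              have hPx : P x := by
                rcases hxu with h9 | h9
                · rw [h9]; exact h6.2.1
                · rw [h9]; exact h6.2.2
              have h7 := (h.hk e h6.1.1 x hxu hPx).1
              obtain ⟨b1, b2⟩ := hbox x hxC
              rw [abs_le] at b1 b2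
              rw [lt_abs] at h7
              push_cast at *
              rcases h7 with h7 | h7 | h7 <;>
                nlinarith [Int.natCast_nonneg a, b1.1, b1.2, b2.1, b2.2]
      · exact Or.inr ih
  have hfin : ∀ y, Reach ((↑F : Set Edg) ∩ ↑Tp) w y → (8 * r * a : ℕ) < sd y (0, 0) → False := by
    intro y hy hy8
    have h5 := h3 w y hwQ hy
    have h6 := sd_tri y w (0, 0)
    rw [sd_comm y w] at h6
    have e1 : ((8 * r * a : ℕ) : ℤ) = 8 * ((r * a : ℕ) : ℤ) := by push_cast; ring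
    rw [e1] at hy8
    have h7 : (8:ℤ) * a ≤ ((r * a : ℕ) : ℤ) := by
      have : 8 * a ≤ r * a := Nat.mul_le_mul_right _ hr1
      exact_mod_cast this
    have h8 := sd_nonneg w y
    omega
  rcases key c (IsT_reach h1' hw hc) with h5 | ⟨y, h5, h6⟩
  · exact hfin c h5 hc8
  · exact hfin y h5 h6

open Classical in
/-- Indexing of the clusters. -/
noncomputable def TIX (GX : Finset Vtx → Prop) (N a : ℕ) : Finset (Finset Vtx) :=
  ((Finset.Icc (-(N * a : ℕ) : ℤ) (N * a : ℕ) ×ˢ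
    Finset.Icc (-(2 * N * a : ℕ) : ℤ) (2 * N * a : ℕ)).powerset).filter (fun C => GX C)

theorem mem_TIX {GX : Finset Vtx → Prop} {C : Finset Vtx} : C ∈ TIX GX N a ↔
    (∀ y ∈ C, |y.1| ≤ (N * a : ℕ) ∧ |y.2| ≤ (2 * N * a : ℕ)) ∧ GX C := by
  simp only [TIX, Finset.mem_filter, Finset.mem_powerset]
  constructor
  · rintro ⟨h1, h2⟩
    refine ⟨fun y hy => ?_, h2⟩
    have := h1 hy
    rw [Finset.mem_product, Finset.mem_Icc, Finset.mem_Icc] at this
    rw [abs_le, abs_le]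
    exact this
  · rintro ⟨h1, h2⟩
    refine ⟨fun y hy => ?_, h2⟩
    have := h1 y hy
    rw [Finset.mem_product, Finset.mem_Icc, Finset.mem_Icc]
    rw [abs_le, abs_le] at this
    exact this

theorem windowX {GX : Finset Vtx → Prop} (hGa : ∀ C, GX C → ∀ x ∈ C, x ∉ rgn Z a 16)
    (hGc : ∀ C, GX C → ∃ w ∈ C, sd w (0, 0) ≤ (r * a : ℕ))
    (h : WD S k A y0 X top P L W0 N a Q Hk) (hr1 : 8 ≤ r) (hr : 64 * r ≤ N)
    {κ : ℝ} (hκ0 : 0 < κ) (hκ : ∀ n : ℕ, Win (1/2) κ n) {p cs : ℝ}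
    (hcs : 0 ≤ cs)
    (hbox : p ≤ PQ (1 / 2) (TP N a) (BvX GX N r a Z yh))
    (hhook : ∀ C : Finset Vtx, (∀ x ∈ C, x ∉ rgn Z a 16) →
      (∀ y ∈ C, |y.1| ≤ (N * a : ℕ) ∧ |y.2| ≤ (2 * N * a : ℕ)) →
      cs * PQ (1 / 2) (UU S k W0) (fun F => Esc N r a Z yh C (↑F : Set Edg)) ≤
        PQ (1 / 2) (UU S k W0) (A2 S k P W0 L Hk N r a Z yh C))
    {H : Finset Edg} (hH : H ⊆ S \ UU S k W0)
    (hconn : ∀ x ∈ L, Reach (↑(H ∩ k) : Set Edg) (A, y0) x) :
    p * cs * κ ^ (4 * (2 * (32 * Q) + 1) ^ 2) *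
      PQ (1 / 2) (UU S k W0) (fun G => Xc (A, y0) (↑(H ∪ G) : Set Edg)) ≤
    PQ (1 / 2) (UU S k W0) (fun G => Xc (A, y0) (↑(H ∪ G) : Set Edg) ∧
      GdX GX S k P W0 L Hk N r a Q Z yh G) := by
  classical
  have ok : Ok (fun _ : Edg => (1/2 : ℝ)) := okq (by norm_num) (by norm_num)
  have ha := h.a64
  have hES : ∀ C : Finset Vtx, ES N r a Z yh C ⊆ UU S k W0 := fun C e he =>
    tp_UU h (mem_ES.1 he).1
  refine win_prob ok (X1 := fun G => Xc (A, y0) (↑(H ∪ G) : Set Edg))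
    (Gd := GdX GX S k P W0 L Hk N r a Q Z yh) ?_
    (TIX GX N a) (fun C => tE N a C) (fun C => D0 S k P W0 Hk N r a Z yh C)
    (fun C _ => tE_UU h C) (fun C _ => D0_UU h C) (fun C _ => tE_D0_disj h C)
    (A1 := fun C F => IsT N a ↑F C) (A2 := fun C F => A2 S k P W0 L Hk N r a Z yh C F)
    (Tr := fun C F => Trp S k P W0 Hk N r a Q Z yh C F)
    (fun C _ F _ => IsT_local F) (fun C _ F _ => A2_local C (Finset.Subset.refl _) F)
    (fun C _ F _ => Trp_local C F) (fun C _ => Trp_decr C) ?_ ?_ (pow_nonneg hκ0.le _)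
    (fun C _ => Trp_prob hκ ha C) ?_
  · intro F G h1 _ h3 h4
    apply h3
    intro w hw
    refine h4 w (hw.mono ?_)
    exact_mod_cast Finset.union_subset_union (Finset.Subset.refl H) h1
  · rintro C hC C' hC' hne F hF ⟨⟨h1, h2, h3⟩, ⟨h1', h2', h3'⟩⟩
    exact dis_windowX h hr1 hr hF hne (hGc _ (mem_TIX.1 hC').2) h1 h1' h2' h3
  · intro C hC F hF h1 h2 h3 hX
    exact ⟨det_window h hH hF C hconn h3 hX, ⟨C, (mem_TIX.1 hC).2, h1, h2, h3⟩⟩
  · -- the sum
    have hstep : ∀ C ∈ TIX GX N a,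
        cs * PQ (1 / 2) (UU S k W0) (fun F => IsT N a (↑F : Set Edg) C ∧
          Esc N r a Z yh C (↑F : Set Edg)) ≤
        Pr (fun _ => (1/2:ℝ)) (UU S k W0) (fun F => IsT N a (↑F : Set Edg) C) *
          Pr (fun _ => (1/2:ℝ)) (UU S k W0) (fun F => A2 S k P W0 L Hk N r a Z yh C F) := by
      intro C hC
      have e1 : PQ (1 / 2) (UU S k W0) (fun F => IsT N a (↑F : Set Edg) C ∧
          Esc N r a Z yh C (↑F : Set Edg)) =
          Pr (fun _ => (1/2:ℝ)) (UU S k W0) (fun F => IsT N a (↑F : Set Edg) C) *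
          Pr (fun _ => (1/2:ℝ)) (UU S k W0) (fun F => Esc N r a Z yh C (↑F : Set Edg)) := by
        apply Pr_indep (S := tE N a C) (T := ES N r a Z yh C) (tE_UU h C) (hES C)
        · rw [Finset.disjoint_left]
          intro e he he2
          exact (mem_ES.1 he2).2.1 he
        · intro F _
          exact IsT_local F
        · intro F _
          exact Esc_local C (Finset.Subset.refl _) F
      have h2 := hhook C (hGa _ (mem_TIX.1 hC).2) (mem_TIX.1 hC).1
      have h3 : 0 ≤ Pr (fun _ => (1/2:ℝ)) (UU S k W0) (fun F => IsT N a (↑F : Set Edg) C) :=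
        Pr_nonneg ok _ _
      rw [e1]
      calc cs * (Pr (fun _ => (1/2:ℝ)) (UU S k W0) (fun F => IsT N a (↑F : Set Edg) C) *
            Pr (fun _ => (1/2:ℝ)) (UU S k W0) (fun F => Esc N r a Z yh C (↑F : Set Edg)))
          = Pr (fun _ => (1/2:ℝ)) (UU S k W0) (fun F => IsT N a (↑F : Set Edg) C) *
            (cs * PQ (1/2) (UU S k W0) (fun F => Esc N r a Z yh C (↑F : Set Edg))) := by ring
        _ ≤ _ := mul_le_mul_of_nonneg_left h2 h3
    have hloc : PQ (1 / 2) (UU S k W0) (BvX GX N r a Z yh) =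
        PQ (1 / 2) (TP N a) (BvX GX N r a Z yh) := by
      apply Pr_local (tp_UU h)
      intro F _
      unfold BvX
      apply exists_congr
      intro C
      have e1 : IsT N a (↑(F ∩ TP N a) : Set Edg) C ↔ IsT N a (↑F : Set Edg) C := by
        unfold IsT
        rw [inter_inter_of_sub (TE_TP N a)]
      rw [e1, Esc_local C (D := TP N a) (fun e he => (mem_ES.1 he).1) F]
    have hun : PQ (1 / 2) (UU S k W0) (BvX GX N r a Z yh) ≤
        ∑ C ∈ TIX GX N a, PQ (1 / 2) (UU S k W0)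
          (fun F => IsT N a (↑F : Set Edg) C ∧ Esc N r a Z yh C (↑F : Set Edg)) := by
      unfold PQ Pr
      rw [← Ex_sum]
      apply Ex_mono ok
      intro F _
      by_cases hB : BvX GX N r a Z yh F
      · obtain ⟨C, hT, hG, hE⟩ := hB
        have hC : C ∈ TIX GX N a := by
          rw [mem_TIX]
          refine ⟨?_, hG⟩
          obtain ⟨w, hw, hwr⟩ := hGc _ hG
          exact fun y hy => IsT_box hT hw (core_box hr hwr) hy
        calc ind (BvX GX N r a Z yh F) ≤ 1 := ind_le_one _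
          _ = ind (IsT N a (↑F : Set Edg) C ∧ Esc N r a Z yh C (↑F : Set Edg)) :=
              (ind_of ⟨hT, hE⟩).symm
          _ ≤ _ := Finset.single_le_sum (f := fun C => ind (IsT N a (↑F : Set Edg) C ∧
              Esc N r a Z yh C (↑F : Set Edg))) (fun _ _ => ind_nonneg _) hC
      · rw [ind_not_of hB]
        exact Finset.sum_nonneg (fun _ _ => ind_nonneg _)
    calc p * cs = cs * p := by ring
      _ ≤ cs * PQ (1 / 2) (TP N a) (BvX GX N r a Z yh) :=
          mul_le_mul_of_nonneg_left hbox hcs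
      _ = cs * PQ (1 / 2) (UU S k W0) (BvX GX N r a Z yh) := by rw [hloc]
      _ ≤ cs * ∑ C ∈ TIX GX N a, PQ (1 / 2) (UU S k W0)
          (fun F => IsT N a (↑F : Set Edg) C ∧ Esc N r a Z yh C (↑F : Set Edg)) :=
          mul_le_mul_of_nonneg_left hun hcs
      _ = ∑ C ∈ TIX GX N a, cs * PQ (1 / 2) (UU S k W0)
          (fun F => IsT N a (↑F : Set Edg) C ∧ Esc N r a Z yh C (↑F : Set Edg)) := by
          rw [Finset.mul_sum]
      _ ≤ _ := Finset.sum_le_sum hstep


/-- The lattice edges which avoid the cluster of `v`. -/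
def AvK (v : Vtx) (F : Set Edg) : Set Edg := {e | ¬ Reach F v (src e) ∧ ¬ Reach F v (tgt e)}

/-- Many vertices of the cluster of `v` which are accessible from the left. -/
def WitX (c0 E0 : ℝ) (a l Q : ℕ) (v : Vtx) (F : Set Edg) : Prop :=
  ∃ V : Finset Vtx, (∀ w ∈ V, Reach F v w) ∧ c0 * (a : ℝ) ^ (4 / 3 : ℝ) ≤ (V.card : ℝ) ∧
    Pc l V ≤ E0 * ((a : ℝ) * l) ^ (4 / 3 : ℝ) ∧
    ∀ w ∈ V, sd w (0, 0) ≤ (Q * a : ℕ) ∧ ∀ m : ℕ, Q * a ≤ m → ∃ p : Vtx, ¬ Reach F v p ∧
      Adj Set.univ p w ∧ ∃ y : Vtx, y.1 = -(m : ℤ) ∧ Reach (AvK v F) p y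

theorem witnessX {c0 E0 : ℝ} {l : ℕ} (h : WD S k A y0 X top P L W0 N a Q Hk) (hr : 64 * r ≤ N)
    (hr1 : 8 ≤ r) (hpat : Pat N Z yh)
    {H G : Finset Edg} (hH : H ⊆ S \ UU S k W0) (hG : G ⊆ UU S k W0)
    (hconn : ∀ x ∈ L, Reach (↑(H ∩ k) : Set Edg) (A, y0) x)
    (hX : Xc (A, y0) (↑(H ∪ G) : Set Edg))
    (hGd : GdX (GoodX N r c0 E0 a l Z yh) S k P W0 L Hk N r a Q Z yh G) :
    WitX c0 E0 a l Q (A, y0) (↑(H ∪ G) : Set Edg) := by
  obtain ⟨C, hGC, hT, hA2, hTr⟩ := hGd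
  have ha := h.a64
  have hQ := h.hQ
  obtain ⟨hCa, ⟨w0, hw0, hw0r⟩, V, hVC, hV1, hV2, hV3⟩ := hGC
  have hbox : ∀ y ∈ C, |y.1| ≤ (N * a : ℕ) ∧ |y.2| ≤ (2 * N * a : ℕ) := fun y hy =>
    IsT_box hT hw0 (core_box hr hw0r) hy
  have hno := fun d hd hR => RG_no (d := d) h hr (by omega) hH hG hpat hCa hbox hT hTr hX hd hR
  have e5 : ((N * a : ℕ) : ℤ) = N * a := by push_cast; ring
  have e1 : (((N + 12) * a : ℕ) : ℤ) = N * a + 12 * a := by push_cast; ring
  have e3 : (((N + 8) * a : ℕ) : ℤ) = N * a + 8 * a := by push_cast; ring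
  have e4 : (((2 * N + 11) * a : ℕ) : ℤ) = 2 * (N * a) + 11 * a := by push_cast; ring
  have e6 : ((8 * r * a : ℕ) : ℤ) = 8 * (r * a) := by push_cast; ring
  have e6' : ((4 * r * a : ℕ) : ℤ) = 4 * (r * a) := by push_cast; ring
  have e8 : (64 : ℤ) * (r * a) ≤ N * a := by
    have : 64 * r * a ≤ N * a := Nat.mul_le_mul_right _ hr
    have h2 : (((64 * r * a : ℕ)) : ℤ) ≤ ((N * a : ℕ) : ℤ) := by exact_mod_cast this
    push_cast at h2
    linarith
  have e9 : (8 : ℤ) * a ≤ r * a := by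
    have : 8 * a ≤ r * a := Nat.mul_le_mul_right _ hr1
    have h2 : ((8 * a : ℕ) : ℤ) ≤ ((r * a : ℕ) : ℤ) := by exact_mod_cast this
    push_cast at h2
    linarith
  have e10 : (2 * N + 20 : ℤ) * a ≤ ((Q * a : ℕ) : ℤ) := by
    have : (2 * N + 20) * a ≤ Q * a := Nat.mul_le_mul_right _ hQ
    have h2 : (((2 * N + 20) * a : ℕ) : ℤ) ≤ ((Q * a : ℕ) : ℤ) := by exact_mod_cast this
    push_cast at h2 ⊢
    exact h2
  have e10' : 2 * ((N : ℤ) * a) + 20 * a ≤ ((Q * a : ℕ) : ℤ) := by linarith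
  have hA := h.hA
  -- the cluster `C` is connected to `v`
  have hC : ∀ c ∈ C, Reach (↑(H ∪ G) : Set Edg) (A, y0) c := by
    intro c hc
    obtain ⟨c', hc', x, hx, hr'⟩ := hA2
    have h1 : Reach (↑(H ∪ G) : Set Edg) (A, y0) x := (hconn x hx).mono (by
      intro e he
      rw [mem_coe, Finset.mem_inter] at he
      rw [mem_coe]
      exact Finset.mem_union_left _ he.1)
    have hGs : (↑G : Set Edg) ⊆ ↑(H ∪ G) := by
      intro e he
      rw [mem_coe] at he ⊢
      exact Finset.mem_union_right _ he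
    have h2 : Reach (↑(H ∪ G) : Set Edg) c' x := hr'.mono (Set.inter_subset_left.trans hGs)
    have h3 : Reach (↑(H ∪ G) : Set Edg) c' c :=
      (IsT_reach hT hc' hc).mono (Set.inter_subset_left.trans hGs)
    exact h1.trans (h2.symm.trans h3)
  have hyh : |yh| ≤ N := (hpat.bd _ hpat.mth).2
  -- the points of the region
  have hKy : ∀ x : Vtx, x ∉ C → (sd x (0, 0) ≤ (4 * r * a : ℕ) ∨ x ∈ rgn Z a 1) →
      ¬ Reach (↑(H ∪ G) : Set Edg) (A, y0) x := by
    intro x hxC hx hd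
    apply hxC
    apply hno x hd
    intro u hu huA
    have hxu : 4 * sd x u ≤ 5 * a := by omega
    rcases hx with h1 | h1
    · have h2 : sd u (0, 0) ≤ (8 * r * a : ℕ) - a := by
        have := sd_tri u x (0, 0)
        rw [sd_comm u x] at this
        rw [e6'] at h1
        rw [e6]
        omega
      refine ⟨?_, Or.inr (Or.inr (Or.inl h2))⟩
      rw [sd_le_iff, abs_le, abs_le, e6] at h2
      simp only [sub_zero] at h2
      rw [abs_le, e3, e4]
      omega
    · have h2 : u ∈ rgn Z a 3 := rgn_nb h1 (s := 2 * a) (by omega) (by push_cast; omega)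
      refine ⟨?_, Or.inl h2⟩
      obtain ⟨z, hz, h3, h4⟩ := h2
      have h5 := hpat.bd z hz
      rw [abs_le] at h3 h4
      rw [abs_le, abs_le] at h5
      have ha0 : (0:ℤ) ≤ a := Int.natCast_nonneg a
      have m1 : z.1 * a ≤ N * a := mul_le_mul_of_nonneg_right h5.1.2 ha0
      have m2 : z.2 * a ≤ N * a := mul_le_mul_of_nonneg_right h5.2.2 ha0
      have m3 : -((N:ℤ) * a) ≤ z.2 * a := by
        have := mul_le_mul_of_nonneg_right h5.2.1 ha0
        linarith
      rw [abs_le, e3, e4]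
      push_cast at h3 h4
      refine ⟨huA, by omega, by omega, by omega⟩
  have hAv : AvE r a Z C ⊆ AvK (A, y0) (↑(H ∪ G) : Set Edg) := fun e he =>
    ⟨hKy _ he.1.1 he.1.2, hKy _ he.2.1 he.2.2⟩
  refine ⟨V, fun w hw => hC w (hVC hw), hV1, hV2, fun w hw => ⟨?_, fun m hm => ?_⟩⟩
  · have h1 := hbox w (hVC hw)
    rw [sd_le_iff]
    simp only [sub_zero]
    rw [abs_le, abs_le] at h1 ⊢
    have e11 : ((2 * N * a : ℕ) : ℤ) = 2 * (N * a) := by push_cast; ring
    rw [e5, e11] at h1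
    omega
  obtain ⟨p, hpC, hpw, y, hy, hch⟩ := hV3 w hw
  have hyZ : y ∈ rgn Z a 1 := by
    obtain ⟨z, hz, hy1, hy2⟩ := hy
    rw [Finset.mem_singleton] at hz
    subst hz
    exact ⟨_, hpat.mth, hy1, hy2⟩
  have hpR : sd p (0, 0) ≤ (4 * r * a : ℕ) ∨ p ∈ rgn Z a 1 := by
    rcases Relation.ReflTransGen.cases_head hch with h1 | ⟨b, ⟨e, he, hee⟩, -⟩
    · rw [h1]; exact Or.inr hyZ
    · rcases hee with ⟨h2, -⟩ | ⟨-, h2⟩
      · rw [← h2]; exact he.1.2
      · rw [← h2]; exact he.2.2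
  obtain ⟨z, hz, hy1, hy2⟩ := hy
  rw [Finset.mem_singleton] at hz
  subst hz
  simp only at hy1 hy2
  rw [abs_le] at hy1 hy2 hyh
  push_cast at hy1 hy2
  have ha0 : (0:ℤ) ≤ a := Int.natCast_nonneg a
  have m2 : yh * a ≤ N * a := mul_le_mul_of_nonneg_right hyh.2 ha0
  have m3 : -((N:ℤ) * a) ≤ yh * a := by
    have := mul_le_mul_of_nonneg_right hyh.1 ha0
    linarith
  have hym : ((Q * a : ℕ) : ℤ) ≤ m := by exact_mod_cast hm
  -- the row to the left
  have hrow : ∀ j : ℕ, ¬ Reach (↑(H ∪ G) : Set Edg) (A, y0) (y.1 - j, y.2) := by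
    intro j hd
    have hdC : ((y.1 - j, y.2) : Vtx) ∉ C := by
      intro hdC
      by_cases h14 : -((N:ℤ) * a) - 14 * a ≤ y.1 - (j : ℤ)
      · refine hCa _ hdC ⟨(-(N : ℤ), yh), hpat.mth, ?_, ?_⟩
        · rw [abs_le]
          simp only
          push_cast at *
          constructor <;> linarith
        · rw [abs_le]
          simp only
          push_cast at *
          constructor <;> linarith
      · have := (hbox _ hdC).1
        rw [abs_le, e5] at this
        simp only at this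
        omega
    apply hdC
    apply hno _ hd
    intro u hu huA
    have hxu' : sd ((y.1 - j, y.2) : Vtx) u ≤ 2 * a := by omega
    rw [sd_le_iff, abs_le, abs_le] at hxu'
    simp only at hxu'
    refine ⟨?_, ?_⟩
    · rw [abs_le, e3, e4]
      refine ⟨huA, ?_, ?_, ?_⟩ <;> push_cast at * <;>
        linarith [hxu'.1.1, hxu'.1.2, hxu'.2.1, hxu'.2.2]
    · by_cases h15 : u.1 ≤ -((N + 12) * a : ℕ)
      · exact Or.inr (Or.inr (Or.inr h15))
      · right; left
        rw [abs_le, abs_le, e5]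
        rw [e1] at h15
        push_cast at *
        refine ⟨⟨by linarith, ?_⟩, ?_, ?_⟩ <;>
          linarith [hxu'.1.1, hxu'.1.2, hxu'.2.1, hxu'.2.2]
  have hpath : ∀ j : ℕ, Reach (AvK (A, y0) (↑(H ∪ G) : Set Edg)) y (y.1 - j, y.2) := by
    intro j
    induction j with
    | zero => simpa using Reach.refl _ y
    | succ j ih =>
      refine ih.trans (Adj.reach ⟨(y.1 - ((j + 1 : ℕ) : ℤ), y.2, true), ⟨?_, ?_⟩, Or.inr ⟨?_, ?_⟩⟩)
      · rw [src_mk]
        exact hrow (j + 1)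
      · rw [tgt_true]
        have : y.1 - ((j + 1 : ℕ) : ℤ) + 1 = y.1 - j := by push_cast; ring
        rw [this]
        exact hrow j
      · rw [src_mk]
      · rw [tgt_true]
        have : y.1 - ((j + 1 : ℕ) : ℤ) + 1 = y.1 - j := by push_cast; ring
        rw [this]
  have hym2 : -(m : ℤ) ≤ y.1 := by linarith [hy1.1]
  obtain ⟨j, hj⟩ := Int.eq_ofNat_of_zero_le (show 0 ≤ y.1 + m by linarith)
  refine ⟨p, hKy p hpC hpR, hpw, (y.1 - j, y.2), ?_, (hch.mono hAv).trans (hpath j)⟩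
  simp only
  omega

end

end Pool.Agent.V5helper72.OA
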